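import Pool.Agent.H41.SL.Defs

/-!
# Project HZ (helper41): Shanks' law and the hazard of the gaps

A random set `A = {n | ω ∈ E n}`; given `A ∩ [0, n]` and `n ∈ A`, the next gap is larger than `h` with
conditional probability `exp (-(1 + o(1)) Λ(h / log n))`. Then almost surely `log p(g) ∼ ψ(g)`, where
`L = ψ(g)` is the solution of `L = Λ(g / L)`, and the lower and upper limits of `log p(g) / √g` are
those of `√(Λ(t) / t)`, `t → ∞`. So Shanks' law holds if and only if `Λ(t) ∼ t`.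
-/

set_option autoImplicit false

namespace Pool.Agent.H41.HZ

open MeasureTheory Filter Topology ProbabilityTheory
open Pool.Agent.H34.ND (Free firstAfter)
open Pool.Agent.H41.LD (Past)
open Pool.Agent.H41.SL (Unb lowerLaw upperLaw)

/-- admissible cumulative hazards `Λ`: continuous, non-decreasing, `Λ(0) = 0`,
`Λ(t) / log t → ∞`, and for each `ε > 0` there is `s > 0` with `Λ(t + s) ≤ (1 + ε) Λ(t)` for all
large `t` -/
structure Scale (Λ : ℝ → ℝ) : Prop where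
  cont : Continuous Λ
  mono : Monotone Λ
  zero : Λ 0 = 0
  light : Tendsto (fun t : ℝ => Λ t / Real.log t) atTop atTop
  reg : ∀ ε : ℝ, 0 < ε → ∃ s : ℝ, 0 < s ∧ ∀ᶠ t : ℝ in atTop, Λ (t + s) ≤ (1 + ε) * Λ t

/-- The random set `{n | ω ∈ E n}` is almost surely infinite and has the cumulative hazard `Λ` on the
scale `log n`: given its part in `[0, n]`, if `n` is an element then it has no element in `(n, n + h]`
with conditional probability `exp (-(1 + o(1)) Λ(h / log n))`, as `n → ∞`, `h / log n → ∞`, as long as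
`Λ(h / log n) ≤ 2 log n`. -/
structure Hazard {Ω : Type*} [MeasurableSpace Ω] (P : Measure Ω) (E : ℕ → Set Ω) (Λ : ℝ → ℝ) :
    Prop where
  meas : ∀ n, MeasurableSet (E n)
  inf : ∀ᵐ ω ∂P, {n | ω ∈ E n}.Infinite
  gap : ∀ ε : ℝ, 0 < ε → ∃ T : ℝ, ∀ n h : ℕ, T ≤ n → T * Real.log n ≤ h →
    Λ (h / Real.log n) ≤ 2 * Real.log n → ∀ B : Set Ω, MeasurableSet[Past E n] B → B ⊆ E n →
      Real.exp (-(1 + ε) * Λ (h / Real.log n)) * P.real B ≤ P.real (B ∩ Free E n (n + h)) ∧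
      P.real (B ∩ Free E n (n + h)) ≤ Real.exp (-(1 - ε) * Λ (h / Real.log n)) * P.real B

/-- `ψ g` is the solution of `L = Λ(g / L)` -/
def IsPsi (Λ : ℝ → ℝ) (ψ : ℕ → ℝ) : Prop := ∀ g : ℕ, 1 ≤ g → 0 < ψ g ∧ Λ (g / ψ g) = ψ g

/-- the event that the first element of the random set after `x` is at most `x + g` and is not
followed by a free window of length `g` -/
def hit {Ω : Type*} (E : ℕ → Set Ω) (x g : ℕ) : Set Ω :=
  ⋃ n ∈ Finset.Ioc x (x + g), (Free E x (n - 1) ∩ E n) ∩ (Free E n (n + g))ᶜ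

/-- EXI (module EXI): the model exists, with the exact formula.

Proof. `Ω = ℕ → ℝ`, `P = Measure.infinitePi` of the uniform distributions on `[0, 1]`;
`hz a n = 1` if `a < 2` and `hz a n = 1 - exp (-(Λ((n - a) / log a) - Λ((n - 1 - a) / log a)))`
otherwise (in `[0, 1]`). `last u 0 = 0`, `last u (n + 1) = n + 1` if `u (n + 1) < hz (last u n) (n + 1)`,
and `last u n` otherwise; `E n = {u | last u n = n}`. `last u n` and the events `E k`, `k ≤ n`, are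
measurable for the `σ`-algebra of the coordinates `u i`, `i ≤ n`. For `B ⊆ E n` in `Past E n` and
`n ≥ 2`: `B ∩ Free E n (n + h) = B ∩ ⋂ j ∈ (0, h], {u | hz n (n + j) ≤ u (n + j)}` (induction on `h`:
`last u (n + j) = n`), and the probability is `P B * ∏ (1 - hz n (n + j)) = P B * exp (-Λ(h / log n))`
(independence of the coordinates; telescoping). Infinite: `P (E n ∩ Free E n (n + h)) → 0` as
`h → ∞` (`Λ → ∞` by `light`), so almost surely no `n ≥ 2` is the last element; `0, 1, 2` are elements. -/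
def S_EXI : Prop :=
  ∀ Λ : ℝ → ℝ, Scale Λ → ∃ (Ω : Type) (_ : MeasurableSpace Ω) (P : Measure Ω)
    (_ : IsProbabilityMeasure P) (E : ℕ → Set Ω), (∀ n, MeasurableSet (E n)) ∧
      (∀ᵐ ω ∂P, {n | ω ∈ E n}.Infinite) ∧
      ∀ n h : ℕ, 2 ≤ n → ∀ B : Set Ω, MeasurableSet[Past E n] B → B ⊆ E n →
        P.real (B ∩ Free E n (n + h)) = Real.exp (-Λ (h / Real.log n)) * P.real B

/-- BLK (module BLK): the block estimate.

Proof. `hit E (x + 2 g i) g` is in `Past E (x + 2 g (i + 1))` (`E n`, `Free E a n` are in `Past E m` for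
`n ≤ m`). For `G` in `Past E x'`, `x' = x + 2 g N`: the sets `C n = G ∩ (Free E x' (n - 1) ∩ E n)`,
`x' < n ≤ x' + g`, are in `Past E n`, contained in `E n` and in `G`, and pairwise disjoint; so
`P (G ∩ hit E x' g) ≤ ∑ n, P (C n ∩ (Free E n (n + g))ᶜ) ≤ ∑ n, (1 - q) P (C n) ≤ (1 - q) P G`. Induction. -/
def S_BLK : Prop :=
  ∀ (Ω : Type) [MeasurableSpace Ω] (P : Measure Ω) [IsProbabilityMeasure P] (E : ℕ → Set Ω),
    (∀ n, MeasurableSet (E n)) → ∀ (x g N : ℕ) (q : ℝ), 0 ≤ q → q ≤ 1 → 1 ≤ g →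
    (∀ n, x < n → n ≤ x + 2 * g * N → ∀ B : Set Ω, MeasurableSet[Past E n] B → B ⊆ E n →
      q * P.real B ≤ P.real (B ∩ Free E n (n + g))) →
    P.real (⋂ i ∈ Finset.range N, hit E (x + 2 * g * i) g) ≤ (1 - q) ^ N

/-- ANA (module ANA): the function `ψ`.

Proof. Existence: `L - Λ(g / L)` is continuous for `L > 0`, negative for small `L`, nonnegative for
`L ≥ max g (Λ 1)`. Monotonicity of `Λ` gives: `Λ(g / L) ≤ L → ψ g ≤ L` and `L ≤ Λ(g / L) → L ≤ ψ g`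
(`L > 0`). `ψ → ∞`: for fixed `M`, `Λ(g / M) > M` for large `g`. `g / ψ g → ∞`: `Λ(g / ψ g) = ψ g → ∞`.
`ψ g / log g → ∞`: if `ψ g ≤ √g` then `g / ψ g ≥ √g` and `ψ g = Λ(g / ψ g) ≥ Λ(√g)`.
Limits: `ψ g / √g = f (g / ψ g)`, `f t = √(Λ t / t)`, so `liminf f ≤ liminf (ψ g / √g)` and
`limsup (ψ g / √g) ≤ limsup f`. For `t` large and `g = ⌊t Λ t⌋`: `Λ(g / Λ t) ≤ Λ t`, so `ψ g ≤ Λ t` and
`ψ g / √g ≤ f t * √(t Λ t / (t Λ t - 1))`; for `g = ⌈t Λ t⌉`: `Λ t ≤ ψ g` and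
`ψ g / √g ≥ f t * √(t Λ t / (t Λ t + 1))`. (Lemma: for nonnegative real functions with `u ≤ c v`
eventually, `c → 1`: `liminf u ≤ liminf v`, `limsup u ≤ limsup v` in `EReal`.) -/
def S_ANA : Prop :=
  ∀ Λ : ℝ → ℝ, Scale Λ → (∃ ψ, IsPsi Λ ψ) ∧ ∀ ψ : ℕ → ℝ, IsPsi Λ ψ →
    (∀ (g : ℕ) (L : ℝ), 1 ≤ g → 0 < L → Λ (g / L) ≤ L → ψ g ≤ L) ∧
    (∀ (g : ℕ) (L : ℝ), 1 ≤ g → 0 < L → L ≤ Λ (g / L) → L ≤ ψ g) ∧
    Tendsto ψ atTop atTop ∧ Tendsto (fun g : ℕ => (g : ℝ) / ψ g) atTop atTop ∧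
    Tendsto (fun g : ℕ => ψ g / Real.log g) atTop atTop ∧
    liminf (fun g : ℕ => ((ψ g / √(g : ℝ) : ℝ) : EReal)) atTop =
      liminf (fun t : ℝ => ((√(Λ t / t) : ℝ) : EReal)) atTop ∧
    limsup (fun g : ℕ => ((ψ g / √(g : ℝ) : ℝ) : EReal)) atTop =
      limsup (fun t : ℝ => ((√(Λ t / t) : ℝ) : EReal)) atTop

end Pool.Agent.H41.HZ
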