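import Pool.Agent.H41.HZ.Law

/-! # Project HZ, module ANA: the function `ψ` -/

set_option autoImplicit false

namespace Pool.Agent.H41.HZ

open Filter Topology

/-- `t Λ(t) → ∞` -/
lemma Scale.tendMul {Λ : ℝ → ℝ} (hS : Scale Λ) : Tendsto (fun t : ℝ => t * Λ t) atTop atTop :=
  tendsto_id.atTop_mul_atTop₀ hS.tend

lemma exists_psi {Λ : ℝ → ℝ} (hS : Scale Λ) : ∃ ψ, IsPsi Λ ψ := by
  have h1 : ∀ g : ℕ, ∃ L : ℝ, 1 ≤ g → 0 < L ∧ Λ (g / L) = L := by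
    intro g
    by_cases hg : 1 ≤ g
    · have hgR : (1:ℝ) ≤ g := by exact_mod_cast hg
      obtain ⟨b, hb1, hb2⟩ := ((hS.tendMul.eventually_ge_atTop (g:ℝ)).and
        (eventually_ge_atTop (0:ℝ))).exists
      obtain ⟨t, ht, hty⟩ := intermediate_value_Icc (f := fun t : ℝ => t * Λ t) hb2
        (continuous_id.mul hS.cont).continuousOn
        (show (g:ℝ) ∈ Set.Icc ((0:ℝ) * Λ 0) (b * Λ b) from ⟨by rw [zero_mul]; linarith, hb1⟩)
      simp only at hty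
      have ht0 : 0 < t := by
        rcases eq_or_lt_of_le ht.1 with h | h
        · rw [← h, zero_mul] at hty; linarith
        · exact h
      have hL : 0 < Λ t := by
        by_contra hcon
        push Not at hcon
        have := mul_nonpos_of_nonneg_of_nonpos ht0.le hcon
        linarith
      refine ⟨Λ t, fun _ => ⟨hL, ?_⟩⟩
      rw [← hty, mul_div_assoc, div_self hL.ne', mul_one]
    · exact ⟨0, fun h => absurd h hg⟩
  choose ψ hψ using h1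
  exact ⟨ψ, hψ⟩

section

variable {Λ : ℝ → ℝ} {ψ : ℕ → ℝ}

lemma psi_le_of (hS : Scale Λ) (hψ : IsPsi Λ ψ) (g : ℕ) (L : ℝ) (hg : 1 ≤ g) (hL : 0 < L)
    (h : Λ (g / L) ≤ L) : ψ g ≤ L := by
  by_contra hcon
  push Not at hcon
  obtain ⟨h1, h2⟩ := hψ g hg
  have h3 : (g:ℝ) / ψ g ≤ g / L := div_le_div_of_nonneg_left (Nat.cast_nonneg g) hL hcon.le
  have h4 := hS.mono h3
  linarith

lemma le_psi_of (hS : Scale Λ) (hψ : IsPsi Λ ψ) (g : ℕ) (L : ℝ) (hg : 1 ≤ g) (_hL : 0 < L)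
    (h : L ≤ Λ (g / L)) : L ≤ ψ g := by
  by_contra hcon
  push Not at hcon
  obtain ⟨h1, h2⟩ := hψ g hg
  have h3 : (g:ℝ) / L ≤ g / ψ g := div_le_div_of_nonneg_left (Nat.cast_nonneg g) h1 hcon.le
  have h4 := hS.mono h3
  linarith

lemma psi_atTop (hS : Scale Λ) (hψ : IsPsi Λ ψ) : Tendsto ψ atTop atTop := by
  rw [tendsto_atTop]
  intro M
  have h1 : Tendsto (fun g : ℕ => Λ ((g:ℝ) / max M 1)) atTop atTop :=
    hS.tend.comp (tendsto_natCast_atTop_atTop.atTop_div_const (lt_max_of_lt_right one_pos))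
  filter_upwards [h1.eventually_ge_atTop (max M 1), eventually_ge_atTop 1] with g h2 h3
  exact (le_max_left M 1).trans (le_psi_of hS hψ g _ h3 (lt_max_of_lt_right one_pos) h2)

lemma quo_atTop (hS : Scale Λ) (hψ : IsPsi Λ ψ) :
    Tendsto (fun g : ℕ => (g : ℝ) / ψ g) atTop atTop := by
  rw [tendsto_atTop]
  intro M
  filter_upwards [(psi_atTop hS hψ).eventually_gt_atTop (Λ M), eventually_ge_atTop 1] with g h2 h3
  obtain ⟨h4, h5⟩ := hψ g h3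
  by_contra hcon
  push Not at hcon
  have h6 := hS.mono hcon.le
  linarith

lemma psi_log (hS : Scale Λ) (hψ : IsPsi Λ ψ) :
    Tendsto (fun g : ℕ => ψ g / Real.log g) atTop atTop := by
  rw [tendsto_atTop]
  intro M
  have hsq : Tendsto (fun x : ℕ => √(x : ℝ)) atTop atTop :=
    Real.tendsto_sqrt_atTop.comp tendsto_natCast_atTop_atTop
  have h1 : ∀ᶠ x : ℝ in atTop, |M| * Real.log x ≤ √x := by
    have h := (isLittleO_log_rpow_atTop (show (0:ℝ) < 1/2 by norm_num)).def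
      (show (0:ℝ) < 1 / (|M| + 1) by positivity)
    filter_upwards [h, eventually_ge_atTop (1:ℝ)] with x hx hx1
    rw [Real.norm_of_nonneg (Real.log_nonneg hx1), ← Real.sqrt_eq_rpow,
      Real.norm_of_nonneg (Real.sqrt_nonneg x)] at hx
    have h2 : |M| * Real.log x ≤ |M| * (1 / (|M| + 1) * √x) :=
      mul_le_mul_of_nonneg_left hx (abs_nonneg M)
    have h3 : |M| * (1 / (|M| + 1) * √x) = |M| / (|M| + 1) * √x := by ring
    have h4 : |M| / (|M| + 1) ≤ 1 := by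
      rw [div_le_one (by positivity)]; linarith
    have h5 := mul_le_mul_of_nonneg_right h4 (Real.sqrt_nonneg x)
    linarith
  have h1' : ∀ᶠ x : ℕ in atTop, |M| * Real.log (x:ℝ) ≤ √(x:ℝ) :=
    tendsto_natCast_atTop_atTop.eventually h1
  have h2 : ∀ᶠ x : ℕ in atTop, 2 * |M| ≤ Λ (√(x:ℝ)) / Real.log (√(x:ℝ)) :=
    (hS.light.comp hsq).eventually_ge_atTop (2 * |M|)
  filter_upwards [h1', h2, eventually_ge_atTop 2] with g h3 h4 hg
  have hgR : (2:ℝ) ≤ g := by exact_mod_cast hg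
  have hlog : 0 < Real.log (g:ℝ) := Real.log_pos (by linarith)
  obtain ⟨h5, h6⟩ := hψ g (by omega)
  refine (le_abs_self M).trans ?_
  rw [le_div_iff₀ hlog]
  rcases le_total (√(g:ℝ)) (ψ g) with h | h
  · linarith
  · rw [Real.log_sqrt (by linarith), le_div_iff₀ (by linarith)] at h4
    have h7 : √(g:ℝ) ≤ g / ψ g := by
      rw [le_div_iff₀ h5]
      calc √(g:ℝ) * ψ g ≤ √(g:ℝ) * √(g:ℝ) := mul_le_mul_of_nonneg_left h (Real.sqrt_nonneg _)
        _ = g := Real.mul_self_sqrt (by linarith)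
    have h8 := hS.mono h7
    linarith

/-- `ψ(g) / √g = f (g / ψ(g))` -/
lemma psi_eq (hψ : IsPsi Λ ψ) (g : ℕ) (hg : 1 ≤ g) :
    ψ g / √(g:ℝ) = √(Λ (g / ψ g) / (g / ψ g)) := by
  obtain ⟨h1, h2⟩ := hψ g hg
  rw [h2, div_div_eq_mul_div, Real.sqrt_div (by positivity), Real.sqrt_mul_self h1.le]

lemma liminf_comp_ge {α β : Type*} {l : Filter α} {k : Filter β} {τ : α → β}
    (h : Tendsto τ l k) (u : β → EReal) : liminf u k ≤ liminf (fun x => u (τ x)) l := by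
  have h1 : liminf u k ≤ liminf u (map τ l) := liminf_le_liminf_of_le h
  exact h1

lemma limsup_comp_le {α β : Type*} {l : Filter α} {k : Filter β} {τ : α → β}
    (h : Tendsto τ l k) (u : β → EReal) : limsup (fun x => u (τ x)) l ≤ limsup u k := by
  have h1 : limsup u (map τ l) ≤ limsup u k := limsup_le_limsup_of_le h
  exact h1

lemma f_eq {x t : ℝ} (hx : 0 < x) (ht : 0 < t) : √(x / t) = x / √(t * x) := by
  rw [show x / t = (x * x) / (t * x) by field_simp, Real.sqrt_div (by positivity),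
    Real.sqrt_mul_self hx.le]

lemma lim_floor (hS : Scale Λ) :
    Tendsto (fun t : ℝ => √(t * Λ t) / √((⌊t * Λ t⌋₊ : ℕ) : ℝ)) atTop (𝓝 1) := by
  have h1 : Tendsto (fun t : ℝ => ((⌊t * Λ t⌋₊ : ℕ) : ℝ) / (t * Λ t)) atTop (𝓝 1) :=
    (tendsto_nat_floor_div_atTop (R := ℝ)).comp hS.tendMul
  have h2 : Tendsto (fun t : ℝ => √((((⌊t * Λ t⌋₊ : ℕ) : ℝ) / (t * Λ t))⁻¹)) atTop (𝓝 1) := by
    have h := (Real.continuous_sqrt.tendsto ((1:ℝ)⁻¹)).comp (h1.inv₀ one_ne_zero)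
    rw [inv_one, Real.sqrt_one] at h
    exact h
  refine h2.congr' ?_
  filter_upwards [hS.tendMul.eventually_ge_atTop 0] with t ht
  rw [inv_div, Real.sqrt_div ht]

lemma lim_ceil (hS : Scale Λ) :
    Tendsto (fun t : ℝ => √((⌈t * Λ t⌉₊ : ℕ) : ℝ) / √(t * Λ t)) atTop (𝓝 1) := by
  have h1 : Tendsto (fun t : ℝ => ((⌈t * Λ t⌉₊ : ℕ) : ℝ) / (t * Λ t)) atTop (𝓝 1) :=
    (tendsto_nat_ceil_div_atTop (R := ℝ)).comp hS.tendMul
  have h2 : Tendsto (fun t : ℝ => √(((⌈t * Λ t⌉₊ : ℕ) : ℝ) / (t * Λ t))) atTop (𝓝 1) := by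
    have h := (Real.continuous_sqrt.tendsto (1:ℝ)).comp h1
    rw [Real.sqrt_one] at h
    exact h
  refine h2.congr' ?_
  filter_upwards with t
  rw [Real.sqrt_div (Nat.cast_nonneg _)]

lemma lim_inf (hS : Scale Λ) (hψ : IsPsi Λ ψ) :
    liminf (fun g : ℕ => ((ψ g / √(g : ℝ) : ℝ) : EReal)) atTop =
      liminf (fun t : ℝ => ((√(Λ t / t) : ℝ) : EReal)) atTop := by
  apply le_antisymm
  · have h1 : Tendsto (fun t : ℝ => ⌊t * Λ t⌋₊) atTop atTop :=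
      tendsto_nat_floor_atTop.comp hS.tendMul
    refine (liminf_comp_ge h1 (fun g : ℕ => ((ψ g / √(g : ℝ) : ℝ) : EReal))).trans ?_
    apply liminf_le_mul (u := fun t : ℝ => ψ ⌊t * Λ t⌋₊ / √((⌊t * Λ t⌋₊ : ℕ) : ℝ))
      (v := fun t : ℝ => √(Λ t / t)) (Eventually.of_forall fun t => Real.sqrt_nonneg _)
      (lim_floor hS)
    filter_upwards [hS.tend.eventually_gt_atTop 0, eventually_gt_atTop (0:ℝ),
      h1.eventually_ge_atTop 1] with t h2 h3 h4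
    have h5 : ((⌊t * Λ t⌋₊ : ℕ) : ℝ) ≤ t * Λ t := Nat.floor_le (by positivity)
    have h6 : ψ ⌊t * Λ t⌋₊ ≤ Λ t := by
      apply psi_le_of hS hψ _ _ h4 h2
      apply hS.mono
      rw [div_le_iff₀ h2]
      exact h5
    have h7 : (1:ℝ) ≤ ((⌊t * Λ t⌋₊ : ℕ) : ℝ) := by exact_mod_cast h4
    have h8 : 0 < √((⌊t * Λ t⌋₊ : ℕ) : ℝ) := Real.sqrt_pos.2 (by linarith)
    have h9 : 0 < √(t * Λ t) := Real.sqrt_pos.2 (by positivity)
    rw [f_eq h2 h3]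
    calc ψ ⌊t * Λ t⌋₊ / √((⌊t * Λ t⌋₊ : ℕ) : ℝ) ≤ Λ t / √((⌊t * Λ t⌋₊ : ℕ) : ℝ) := by gcongr
      _ = √(t * Λ t) / √((⌊t * Λ t⌋₊ : ℕ) : ℝ) * (Λ t / √(t * Λ t)) := by field_simp
  · refine (liminf_comp_ge (quo_atTop hS hψ)
      (fun t : ℝ => ((√(Λ t / t) : ℝ) : EReal))).trans (le_of_eq ?_)
    apply liminf_congr
    filter_upwards [eventually_ge_atTop 1] with g hg
    rw [psi_eq hψ g hg]

lemma lim_sup (hS : Scale Λ) (hψ : IsPsi Λ ψ) :
    limsup (fun g : ℕ => ((ψ g / √(g : ℝ) : ℝ) : EReal)) atTop =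
      limsup (fun t : ℝ => ((√(Λ t / t) : ℝ) : EReal)) atTop := by
  apply le_antisymm
  · refine le_trans (le_of_eq ?_) (limsup_comp_le (quo_atTop hS hψ)
      (fun t : ℝ => ((√(Λ t / t) : ℝ) : EReal)))
    apply limsup_congr
    filter_upwards [eventually_ge_atTop 1] with g hg
    rw [psi_eq hψ g hg]
  · have h1 : Tendsto (fun t : ℝ => ⌈t * Λ t⌉₊) atTop atTop :=
      tendsto_nat_ceil_atTop.comp hS.tendMul
    refine le_trans ?_ (limsup_comp_le h1 (fun g : ℕ => ((ψ g / √(g : ℝ) : ℝ) : EReal)))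
    have hpos : ∀ᶠ t : ℝ in atTop, 0 ≤ ψ ⌈t * Λ t⌉₊ / √((⌈t * Λ t⌉₊ : ℕ) : ℝ) := by
      filter_upwards [h1.eventually_ge_atTop 1] with t ht
      exact div_nonneg (hψ _ ht).1.le (Real.sqrt_nonneg _)
    apply limsup_le_mul (u := fun t : ℝ => √(Λ t / t))
      (v := fun t : ℝ => ψ ⌈t * Λ t⌉₊ / √((⌈t * Λ t⌉₊ : ℕ) : ℝ)) hpos (lim_ceil hS)
    filter_upwards [hS.tend.eventually_gt_atTop 0, eventually_gt_atTop (0:ℝ),
      h1.eventually_ge_atTop 1] with t h2 h3 h4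
    have h5 : t * Λ t ≤ ((⌈t * Λ t⌉₊ : ℕ) : ℝ) := Nat.le_ceil _
    have h6 : Λ t ≤ ψ ⌈t * Λ t⌉₊ := by
      apply le_psi_of hS hψ _ _ h4 h2
      apply hS.mono
      rw [le_div_iff₀ h2]
      exact h5
    have h7 : (1:ℝ) ≤ ((⌈t * Λ t⌉₊ : ℕ) : ℝ) := by exact_mod_cast h4
    have h8 : 0 < √((⌈t * Λ t⌉₊ : ℕ) : ℝ) := Real.sqrt_pos.2 (by linarith)
    have h9 : 0 < √(t * Λ t) := Real.sqrt_pos.2 (by positivity)
    rw [f_eq h2 h3]
    calc Λ t / √(t * Λ t) ≤ ψ ⌈t * Λ t⌉₊ / √(t * Λ t) := by gcongr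
      _ = √((⌈t * Λ t⌉₊ : ℕ) : ℝ) / √(t * Λ t) * (ψ ⌈t * Λ t⌉₊ / √((⌈t * Λ t⌉₊ : ℕ) : ℝ)) := by
        field_simp

end

/-- module ANA -/
theorem ana : S_ANA := fun _ hS => ⟨exists_psi hS, fun _ hψ =>
  ⟨psi_le_of hS hψ, le_psi_of hS hψ, psi_atTop hS hψ, quo_atTop hS hψ, psi_log hS hψ,
    lim_inf hS hψ, lim_sup hS hψ⟩⟩

end Pool.Agent.H41.HZ
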