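import Pool.Agent.H41.HZ.Low

/-! # Project HZ: the law of the first occurrences -/

set_option autoImplicit false
set_option linter.unusedSectionVars false
set_option linter.unusedVariables false

namespace Pool.Agent.H41.HZ

open MeasureTheory Filter Topology ProbabilityTheory
open Pool.Agent.H34.ND (Free firstAfter bc_upper nth_mono gap_of_free index_large firstAfter_le
  firstAfter_spec tendsto_log_nat exists_between)
open Pool.Agent.H41.LD (Past)
open Pool.Agent.H41.SL (Unb lowerLaw upperLaw Next next_of_dyadic)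

/-! ### lower and upper limits of proportional functions -/

section lim

variable {α : Type*} {l : Filter α} [NeBot l] {u v c : α → ℝ}

lemma limsup_le_mul (hv : ∀ᶠ x in l, 0 ≤ v x) (hc : Tendsto c l (𝓝 1))
    (h : ∀ᶠ x in l, u x ≤ c x * v x) :
    limsup (fun x => (u x : EReal)) l ≤ limsup (fun x => (v x : EReal)) l := by
  by_contra hcon
  rw [not_le] at hcon
  obtain ⟨r, hr1, hr2⟩ := EReal.lt_iff_exists_real_btwn.1 hcon
  obtain ⟨r', hr3, hr4⟩ := EReal.lt_iff_exists_real_btwn.1 hr2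
  have hrr : r < r' := EReal.coe_lt_coe_iff.1 hr3
  have h1 : ∀ᶠ x in l, ((v x : ℝ) : EReal) < r := eventually_lt_of_limsup_lt hr1
  have hr0 : 0 < r := by
    obtain ⟨x, hx1, hx2⟩ := (h1.and hv).exists
    exact lt_of_le_of_lt hx2 (EReal.coe_lt_coe_iff.1 hx1)
  have h2 : ∀ᶠ x in l, c x ≤ r' / r := by
    apply hc.eventually_le_const
    rw [lt_div_iff₀ hr0]
    linarith
  refine absurd hr4 (not_lt.2 ?_)
  apply limsup_le_of_le (by isBoundedDefault)
  filter_upwards [h, h1, h2, hv] with x k1 k2 k3 k4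
  have k5 : v x < r := EReal.coe_lt_coe_iff.1 k2
  rw [EReal.coe_le_coe_iff]
  calc u x ≤ c x * v x := k1
    _ ≤ r' / r * v x := mul_le_mul_of_nonneg_right k3 k4
    _ ≤ r' / r * r := mul_le_mul_of_nonneg_left k5.le (div_pos (hr0.trans hrr) hr0).le
    _ = r' := by field_simp

lemma liminf_le_mul (hv : ∀ᶠ x in l, 0 ≤ v x) (hc : Tendsto c l (𝓝 1))
    (h : ∀ᶠ x in l, u x ≤ c x * v x) :
    liminf (fun x => (u x : EReal)) l ≤ liminf (fun x => (v x : EReal)) l := by
  by_contra hcon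
  rw [not_le] at hcon
  obtain ⟨r, hr1, hr2⟩ := EReal.lt_iff_exists_real_btwn.1 hcon
  obtain ⟨r', hr3, hr4⟩ := EReal.lt_iff_exists_real_btwn.1 hr2
  have hrr : r < r' := EReal.coe_lt_coe_iff.1 hr3
  have h1 : ∃ᶠ x in l, ((v x : ℝ) : EReal) < r := frequently_lt_of_liminf_lt (by isBoundedDefault) hr1
  have h5 : ∀ᶠ x in l, (r' : EReal) < ((u x : ℝ) : EReal) := eventually_lt_of_lt_liminf hr4
  have hr0 : 0 < r := by
    obtain ⟨x, hx1, hx2⟩ := (h1.and_eventually hv).exists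
    exact lt_of_le_of_lt hx2 (EReal.coe_lt_coe_iff.1 hx1)
  have h2 : ∀ᶠ x in l, c x ≤ r' / r := by
    apply hc.eventually_le_const
    rw [lt_div_iff₀ hr0]
    linarith
  obtain ⟨x, k2, k1, k3, k4, k6⟩ := (h1.and_eventually (h.and (h2.and (hv.and h5)))).exists
  have k5 : v x < r := EReal.coe_lt_coe_iff.1 k2
  have k7 : r' < u x := EReal.coe_lt_coe_iff.1 k6
  have k8 : u x ≤ r' := by
    calc u x ≤ c x * v x := k1
      _ ≤ r' / r * v x := mul_le_mul_of_nonneg_right k3 k4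
      _ ≤ r' / r * r := mul_le_mul_of_nonneg_left k5.le (div_pos (hr0.trans hrr) hr0).le
      _ = r' := by field_simp
  linarith

end lim

/-! ### deterministic part -/

variable {Λ : ℝ → ℝ} {A : Set ℕ}

lemma next_of_up (hS : Scale Λ) (hinf : A.Infinite) (hup : ∀ ε : ℝ, 0 < ε → UpG Λ A ε) :
    Next A := by
  obtain ⟨n₀, hn₀⟩ := eventually_atTop.1 (hup 1 one_pos)
  apply next_of_dyadic hinf
  have hsq : Tendsto (fun x : ℕ => √(x : ℝ)) atTop atTop :=
    Real.tendsto_sqrt_atTop.comp tendsto_natCast_atTop_atTop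
  have hlog : ∀ᶠ x : ℕ in atTop, Real.log x ≤ √(x : ℝ) := by
    have h1 := (isLittleO_log_rpow_atTop (show (0:ℝ) < 1 / 2 by norm_num)).bound one_pos
    have h2 := tendsto_natCast_atTop_atTop (R := ℝ) |>.eventually h1
    filter_upwards [h2, eventually_ge_atTop 1] with x hx hx1
    rw [one_mul, ← Real.sqrt_eq_rpow, Real.norm_of_nonneg (Real.sqrt_nonneg _)] at hx
    exact (le_abs_self _).trans hx
  filter_upwards [eventually_ge_atTop (Nat.nth (· ∈ A) 0),
    eventually_ge_atTop (Nat.nth (· ∈ A) (n₀ + 3)), hlog,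
    hsq.eventually (hS.light.eventually_ge_atTop 5), hsq.eventually_gt_atTop 1,
    eventually_ge_atTop 2] with x h1 h2 h3 h4 h5 h6
  by_contra hcon
  push Not at hcon
  obtain ⟨k, hk1, hk2⟩ := exists_between hinf h1
  set a := Nat.nth (· ∈ A) k with ha
  have hk : n₀ + 3 ≤ k := by
    by_contra hlt
    rw [not_le] at hlt
    have h7 : Nat.nth (· ∈ A) (k + 1) ≤ Nat.nth (· ∈ A) (n₀ + 3) :=
      (nth_mono hinf).monotone (by omega)
    omega
  have hka : k ≤ a := (nth_mono hinf).id_le k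
  have hfree : ∀ m, a < m → m ≤ a + (2 * x - a) → m ∉ A := by
    intro m hm1 hm2 hmA
    classical
    have h7 : Nat.nth (· ∈ A) (Nat.count (· ∈ A) m) = m := Nat.nth_count (p := (· ∈ A)) hmA
    have h8 : x < m := by
      rw [← h7] at hm1 ⊢
      have h9 := (nth_mono hinf).lt_iff_lt.1 hm1
      exact lt_of_lt_of_le hk2 ((nth_mono hinf).monotone h9)
    exact hcon m h8 (by omega) hmA
  have h7 := hn₀ a (by omega) (Nat.nth_mem_of_infinite hinf k) (2 * x - a) hfree
  have ha3 : 3 ≤ a := by omega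
  have ha0 : (1:ℝ) < a := by
    have : 1 < a := by omega
    exact_mod_cast this
  have hla : 0 < Real.log a := Real.log_pos ha0
  have hax : Real.log a ≤ Real.log x := Real.log_le_log (by linarith) (by exact_mod_cast hk1)
  have hx0 : (0:ℝ) < x := by
    have : 0 < x := by omega
    exact_mod_cast this
  have hlx : 0 < Real.log x := lt_of_lt_of_le hla hax
  have h8 : (x : ℝ) ≤ ((2 * x - a : ℕ) : ℝ) := by
    have : x ≤ 2 * x - a := by omega
    exact_mod_cast this
  have h9 : √(x : ℝ) ≤ ((2 * x - a : ℕ) : ℝ) / Real.log a := by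
    rw [le_div_iff₀ hla]
    calc √(x:ℝ) * Real.log a ≤ √(x:ℝ) * √(x:ℝ) :=
          mul_le_mul_of_nonneg_left (hax.trans h3) (Real.sqrt_nonneg _)
      _ = x := Real.mul_self_sqrt hx0.le
      _ ≤ _ := h8
  have h10 := hS.mono h9
  have h11 : 5 * Real.log (√(x:ℝ)) ≤ Λ (√(x:ℝ)) := by
    rwa [le_div_iff₀ (Real.log_pos h5)] at h4
  rw [Real.log_sqrt hx0.le] at h11
  nlinarith

lemma unb_of_low {ψ : ℕ → ℝ} (hinf : A.Infinite) (hlow : ∀ ε : ℝ, 0 < ε → LowG ψ A ε) :
    Unb A := by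
  intro g
  obtain ⟨g', hg', h1, h2⟩ := ((hlow 1 one_pos).and ((eventually_ge_atTop g).and
    (eventually_gt_atTop (Nat.nth (· ∈ A) 0)))).exists
  obtain ⟨a, ha, -, hfree⟩ := hg'
  obtain ⟨k, hk1, hk2⟩ := gap_of_free hinf h2 (n := a) (g := g') hfree
  exact ⟨k, by omega⟩

lemma psi_le (hS : Scale Λ) (hinf : A.Infinite) {ψ : ℕ → ℝ} (hunb : Unb A)
    (hm : ∀ (g : ℕ) (L : ℝ), 1 ≤ g → 0 < L → Λ (g / L) ≤ L → ψ g ≤ L) {ε : ℝ} (hε : 0 < ε)
    (hup : UpG Λ A ε) :
    ∀ᶠ g : ℕ in atTop, ψ g ≤ (1 + ε) * Real.log (firstAfter A g) := by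
  obtain ⟨n₀, hn₀⟩ := eventually_atTop.1 hup
  filter_upwards [index_large hinf (n₀ + 3), eventually_ge_atTop 1] with g hg hg1
  obtain ⟨k, hk1, hk2⟩ := firstAfter_spec (hunb g)
  have hk := hg k hk2
  set a := Nat.nth (· ∈ A) k with ha
  have hka : k ≤ a := (nth_mono hinf).id_le k
  have hfree : ∀ m, a < m → m ≤ a + g → m ∉ A := by
    intro m hm1 hm2 hmA
    classical
    have h7 : Nat.nth (· ∈ A) (Nat.count (· ∈ A) m) = m := Nat.nth_count (p := (· ∈ A)) hmA
    rw [← h7] at hm1 hm2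
    have h9 := (nth_mono hinf).lt_iff_lt.1 hm1
    have h10 := (nth_mono hinf).monotone (show k + 1 ≤ Nat.count (· ∈ A) m from h9)
    omega
  have h1 := hn₀ a (by omega) (Nat.nth_mem_of_infinite hinf k) g hfree
  have ha0 : (1:ℝ) < a := by
    have : 1 < a := by omega
    exact_mod_cast this
  have hla : 0 < Real.log a := Real.log_pos ha0
  have h2 : ψ g ≤ (1 + ε) * Real.log a := by
    apply hm g _ hg1 (by positivity)
    refine le_trans (hS.mono ?_) h1
    apply div_le_div_of_nonneg_left (Nat.cast_nonneg g) hla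
    nlinarith
  refine h2.trans ?_
  apply mul_le_mul_of_nonneg_left _ (by linarith)
  apply Real.log_le_log (by linarith)
  rw [hk1]
  have : a ≤ Nat.nth (· ∈ A) (k + 1) := (nth_mono hinf).monotone (Nat.le_succ k)
  exact_mod_cast this

lemma le_psi (hinf : A.Infinite) {ψ : ℕ → ℝ} (hnext : Next A) (hψ : Tendsto ψ atTop atTop)
    {ε : ℝ} (hε : 0 < ε) (hlow : LowG ψ A ε) :
    ∀ᶠ g : ℕ in atTop, Real.log (firstAfter A g) ≤ (1 + 2 * ε) * ψ g := by
  have hY : Tendsto (fun g : ℕ => 2 * YY ψ ε g) atTop atTop := by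
    have h1 : Tendsto (fun g : ℕ => YY ψ ε g) atTop atTop := by
      apply tendsto_nat_ceil_atTop.comp
      apply Real.tendsto_exp_atTop.comp
      exact hψ.const_mul_atTop (by linarith)
    exact tendsto_atTop_mono (fun g => by omega) h1
  filter_upwards [hlow, hY.eventually hnext, eventually_gt_atTop (Nat.nth (· ∈ A) 0),
    hψ.eventually_ge_atTop (3 * Real.log 2 / ε), hψ.eventually_ge_atTop 0] with g h1 h2 h3 h4 h5
  obtain ⟨a, ha, ha2, hfree⟩ := h1
  obtain ⟨k, hk1, hk2⟩ := gap_of_free hinf h3 (n := a) (g := g) hfree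
  have h6 := h2 k (hk1.trans ha2)
  have h7 := log_YY_le (ψ := ψ) (ε := ε) (g := g) (by positivity)
  have h8 : Real.log (firstAfter A g) ≤ Real.log (Nat.nth (· ∈ A) (k + 1)) := by
    rcases Nat.eq_zero_or_pos (firstAfter A g) with h9 | h9
    · rw [h9]
      simp only [Nat.cast_zero, Real.log_zero]
      exact Real.log_natCast_nonneg _
    · exact Real.log_le_log (by exact_mod_cast h9) (by exact_mod_cast firstAfter_le hk2)
  rw [div_le_iff₀ hε] at h4
  push_cast at h6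
  linarith

/-- the first occurrences -/
theorem ratio_tendsto (hS : Scale Λ) (hinf : A.Infinite) {ψ : ℕ → ℝ} (hψ : IsPsi Λ ψ)
    (hm : ∀ (g : ℕ) (L : ℝ), 1 ≤ g → 0 < L → Λ (g / L) ≤ L → ψ g ≤ L)
    (hψt : Tendsto ψ atTop atTop) (hup : ∀ ε : ℝ, 0 < ε → UpG Λ A ε)
    (hlow : ∀ ε : ℝ, 0 < ε → LowG ψ A ε) :
    Tendsto (fun g : ℕ => Real.log (firstAfter A g) / ψ g) atTop (𝓝 1) := by
  have hunb := unb_of_low hinf hlow
  have hnext := next_of_up hS hinf hup
  rw [tendsto_order]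
  constructor
  · intro a ha
    obtain ⟨ε, hε, hεa⟩ : ∃ ε : ℝ, 0 < ε ∧ a * (1 + ε) < 1 := by
      rcases le_or_gt a 0 with h0 | h0
      · exact ⟨1, one_pos, by linarith⟩
      · refine ⟨(1 - a) / 2, by linarith, ?_⟩
        nlinarith
    filter_upwards [psi_le hS hinf hunb hm hε (hup ε hε), hψt.eventually_gt_atTop 0] with g h1 h2
    rw [lt_div_iff₀ h2]
    have h3 : 0 < 1 + ε := by linarith
    have h4 : (1 + ε) * (a * ψ g) < (1 + ε) * Real.log (firstAfter A g) := by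
      calc (1 + ε) * (a * ψ g) = (a * (1 + ε)) * ψ g := by ring
        _ < 1 * ψ g := mul_lt_mul_of_pos_right hεa h2
        _ = ψ g := one_mul _
        _ ≤ _ := h1
    exact lt_of_mul_lt_mul_left h4 h3.le
  · intro b hb
    have hε : 0 < (b - 1) / 4 := by linarith
    filter_upwards [le_psi hinf hnext hψt hε (hlow _ hε), hψt.eventually_gt_atTop 0] with g h1 h2
    rw [div_lt_iff₀ h2]
    nlinarith

lemma laws_eq {ψ : ℕ → ℝ} (hψt : Tendsto ψ atTop atTop)
    (h : Tendsto (fun g : ℕ => Real.log (firstAfter A g) / ψ g) atTop (𝓝 1)) :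
    lowerLaw A = liminf (fun g : ℕ => ((ψ g / √(g : ℝ) : ℝ) : EReal)) atTop ∧
    upperLaw A = limsup (fun g : ℕ => ((ψ g / √(g : ℝ) : ℝ) : EReal)) atTop := by
  have h1 : ∀ᶠ g : ℕ in atTop, 0 ≤ Real.log (firstAfter A g) / √(g : ℝ) :=
    Eventually.of_forall fun g => div_nonneg (Real.log_natCast_nonneg _) (Real.sqrt_nonneg _)
  have h2 : ∀ᶠ g : ℕ in atTop, 0 ≤ ψ g / √(g : ℝ) := by
    filter_upwards [hψt.eventually_ge_atTop 0] with g hg
    exact div_nonneg hg (Real.sqrt_nonneg _)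
  have h3 : Tendsto (fun g : ℕ => (Real.log (firstAfter A g) / ψ g)⁻¹) atTop (𝓝 1) := by
    have := h.inv₀ one_ne_zero
    rwa [inv_one] at this
  have h4 : ∀ᶠ g : ℕ in atTop, Real.log (firstAfter A g) / √(g : ℝ) ≤
      Real.log (firstAfter A g) / ψ g * (ψ g / √(g : ℝ)) := by
    filter_upwards [hψt.eventually_gt_atTop 0] with g hg
    apply le_of_eq
    field_simp
  have h5 : ∀ᶠ g : ℕ in atTop, ψ g / √(g : ℝ) ≤
      (Real.log (firstAfter A g) / ψ g)⁻¹ * (Real.log (firstAfter A g) / √(g : ℝ)) := by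
    filter_upwards [hψt.eventually_gt_atTop 0, h.eventually_const_lt zero_lt_one] with g hg hg2
    have h6 : 0 < Real.log (firstAfter A g) := by
      by_contra hcon
      rw [not_lt] at hcon
      exact absurd hg2 (not_lt.2 (div_nonpos_of_nonpos_of_nonneg hcon hg.le))
    apply le_of_eq
    field_simp
  exact ⟨le_antisymm (liminf_le_mul h2 h h4) (liminf_le_mul h1 h3 h5),
    le_antisymm (limsup_le_mul h2 h h4) (limsup_le_mul h1 h3 h5)⟩

end Pool.Agent.H41.HZ
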