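import Pool.Agent.H41.HZ.Up

/-! # Project HZ: long gaps occur early -/

set_option autoImplicit false
set_option linter.unusedSectionVars false
set_option linter.unusedVariables false

namespace Pool.Agent.H41.HZ

open MeasureTheory Filter Topology ProbabilityTheory
open Pool.Agent.H34.ND (Free firstAfter bc_upper nth_mono gap_of_free index_large firstAfter_le
  firstAfter_spec tendsto_log_nat exists_between)
open Pool.Agent.H41.LD (Past)
open Pool.Agent.H41.SL (Unb lowerLaw upperLaw Next next_of_dyadic)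

variable {Ω : Type} [MeasurableSpace Ω] {P : Measure Ω} [IsProbabilityMeasure P]
  {E : ℕ → Set Ω} {Λ : ℝ → ℝ}

/-- the bound for the starting point -/
noncomputable def YY (ψ : ℕ → ℝ) (ε : ℝ) (g : ℕ) : ℕ := ⌈Real.exp ((1 + ε) * ψ g)⌉₊

/-- for all large `g` there is a free window of length `g` after an element `a ≤ 2 Y` -/
def LowG (ψ : ℕ → ℝ) (A : Set ℕ) (ε : ℝ) : Prop := ∀ᶠ g : ℕ in atTop, ∃ a ∈ A,
  a ≤ 2 * YY ψ ε g ∧ ∀ m, a < m → m ≤ a + g → m ∉ A

lemma exp_le_YY (ψ : ℕ → ℝ) (ε : ℝ) (g : ℕ) : Real.exp ((1 + ε) * ψ g) ≤ YY ψ ε g := Nat.le_ceil _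

lemma log_YY_le {ψ : ℕ → ℝ} {ε : ℝ} {g : ℕ} (h : 0 ≤ (1 + ε) * ψ g) :
    Real.log (2 * YY ψ ε g) ≤ (1 + ε) * ψ g + 2 * Real.log 2 := by
  have h1 : (YY ψ ε g : ℝ) ≤ 2 * Real.exp ((1 + ε) * ψ g) := by
    have h2 : (YY ψ ε g : ℝ) < Real.exp ((1 + ε) * ψ g) + 1 := Nat.ceil_lt_add_one (Real.exp_pos _).le
    have h3 : 1 ≤ Real.exp ((1 + ε) * ψ g) := Real.one_le_exp h
    linarith
  have h0 : (0:ℝ) < YY ψ ε g := lt_of_lt_of_le (Real.exp_pos _) (exp_le_YY ψ ε g)
  calc Real.log (2 * YY ψ ε g) ≤ Real.log (2 * (2 * Real.exp ((1 + ε) * ψ g))) :=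
        Real.log_le_log (by positivity) (by linarith)
    _ = (1 + ε) * ψ g + 2 * Real.log 2 := by
      rw [Real.log_mul (by norm_num) (by positivity), Real.log_mul (by norm_num) (by positivity),
        Real.log_exp]
      ring

lemma le_log_YY (ψ : ℕ → ℝ) (ε : ℝ) (g : ℕ) : (1 + ε) * ψ g ≤ Real.log (YY ψ ε g) := by
  rw [← Real.log_exp ((1 + ε) * ψ g)]
  exact Real.log_le_log (Real.exp_pos _) (exp_le_YY ψ ε g)

/-- a free window after an element, if one of the blocks is not hit -/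
lemma exists_free {A : Set ℕ} (hinf : A.Infinite) {ω : Ω} (hA : A = {n | ω ∈ E n}) {x g : ℕ}
    (hg : Nat.nth (· ∈ A) 0 < g) (h : ω ∉ hit E x g) :
    ∃ a ∈ A, a ≤ x + g ∧ ∀ m, a < m → m ≤ a + g → m ∉ A := by
  classical
  by_cases hex : ∃ n, x < n ∧ n ≤ x + g ∧ n ∈ A
  · obtain ⟨h1, h2, h3⟩ := Nat.find_spec hex
    set n := Nat.find hex with hn
    refine ⟨n, h3, h2, ?_⟩
    by_contra hcon
    apply h
    unfold hit
    simp only [Set.mem_iUnion]
    refine ⟨n, Finset.mem_Ioc.2 ⟨h1, h2⟩, ⟨⟨fun m hm1 hm2 hmE => ?_, ?_⟩, fun hf => hcon ?_⟩⟩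
    · have h4 : m < n := by omega
      exact Nat.find_min hex h4 ⟨hm1, by omega, by rw [hA]; exact hmE⟩
    · rw [hA] at h3
      exact h3
    · intro m hm1 hm2 hmA
      rw [hA] at hmA
      exact hf m hm1 hm2 hmA
  · obtain ⟨k, hk1, hk2⟩ := gap_of_free hinf hg (n := x) (g := g) fun m hm1 hm2 hmA =>
      hex ⟨m, hm1, hm2, hmA⟩
    refine ⟨Nat.nth (· ∈ A) k, Nat.nth_mem_of_infinite hinf k, by omega, fun m hm1 hm2 hmA => ?_⟩
    have h2 : Nat.nth (· ∈ A) (Nat.count (· ∈ A) m) = m := Nat.nth_count (p := (· ∈ A)) hmA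
    rw [← h2] at hm1 hm2
    have h3 := (nth_mono hinf).lt_iff_lt.1 hm1
    have h4 := (nth_mono hinf).monotone (show k + 1 ≤ Nat.count (· ∈ A) m from h3)
    omega

lemma low_eps (hBLK : S_BLK) (hS : Scale Λ) (hH : Hazard P E Λ) {ψ : ℕ → ℝ} (hψ : IsPsi Λ ψ)
    (h1 : Tendsto ψ atTop atTop) (h2 : Tendsto (fun g : ℕ => (g : ℝ) / ψ g) atTop atTop)
    (h3 : Tendsto (fun g : ℕ => ψ g / Real.log g) atTop atTop) {ε : ℝ} (hε : 0 < ε) (hε1 : ε ≤ 1) :
    ∀ᵐ ω ∂P, LowG ψ {n | ω ∈ E n} ε := by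
  obtain ⟨T, hT⟩ := hH.gap (ε / 2) (by positivity)
  set N : ℕ → ℕ := fun g => YY ψ ε g / (2 * g) with hN
  have hbound : ∀ᶠ g : ℕ in atTop, P.real (⋂ i ∈ Finset.range (N g),
      hit E (YY ψ ε g + 2 * g * i) g) ≤ Real.exp 1 * Real.exp (-(g : ℝ)) := by
    filter_upwards [h1.eventually_ge_atTop (2 * Real.log 2), h1.eventually_ge_atTop (Real.log (max T 1)),
      h2.eventually_ge_atTop (3 * max T 1), h3.eventually_ge_atTop (6 / ε),
      eventually_ge_atTop 2] with g k1 k2 k3 k4 k5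
    have hψ0 : 0 < ψ g := (hψ g (by omega)).1
    have hψΛ : Λ (g / ψ g) = ψ g := (hψ g (by omega)).2
    have hg0 : (0:ℝ) < g := by
      have : 0 < g := by omega
      exact_mod_cast this
    have hg2 : (2:ℝ) ≤ g := by exact_mod_cast k5
    have hY0 : (0:ℝ) < YY ψ ε g := lt_of_lt_of_le (Real.exp_pos _) (exp_le_YY ψ ε g)
    have hdiv : 2 * g * N g ≤ YY ψ ε g := Nat.mul_div_le _ _
    have hT1 : (1:ℝ) ≤ max T 1 := le_max_right _ _
    set q : ℝ := Real.exp (-(1 + ε / 2) * ψ g) with hq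
    have hq0 : 0 < q := Real.exp_pos _
    have hq1 : q ≤ 1 := by
      rw [hq]
      apply Real.exp_le_one_iff.2
      nlinarith
    have hblk := hBLK Ω P E hH.meas (YY ψ ε g) g (N g) q hq0.le hq1 (by omega) (by
      intro n hn1 hn2 B hB hBE
      have hn3 : n ≤ 2 * YY ψ ε g := by omega
      have hYn : (YY ψ ε g : ℝ) ≤ n := by exact_mod_cast hn1.le
      have hn0 : (0:ℝ) < n := lt_of_lt_of_le hY0 hYn
      have hln1 : (1 + ε) * ψ g ≤ Real.log n := (le_log_YY ψ ε g).trans (Real.log_le_log hY0 hYn)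
      have hln2 : Real.log n ≤ (1 + ε) * ψ g + 2 * Real.log 2 := by
        refine le_trans ?_ (log_YY_le (by positivity))
        apply Real.log_le_log hn0
        exact_mod_cast hn3
      have hlnψ : ψ g ≤ Real.log n := by nlinarith
      have hln0 : 0 < Real.log n := lt_of_lt_of_le hψ0 hlnψ
      have hln3 : Real.log n ≤ 3 * ψ g := by nlinarith
      have hΛ : Λ (g / Real.log n) ≤ ψ g := by
        rw [← hψΛ]
        have h5 : (g : ℝ) / Real.log n ≤ g / ψ g := div_le_div_of_nonneg_left hg0.le hψ0 hlnψ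
        have h6 := hS.mono h5
        rw [hψΛ] at h6
        rw [hψΛ]
        exact h6
      have c1 : T ≤ n := by
        have h5 : Real.log (max T 1) ≤ Real.log n := k2.trans hlnψ
        have h6 : max T 1 ≤ (n : ℝ) :=
          (Real.log_le_log_iff (by linarith) hn0).1 h5
        exact (le_max_left _ _).trans h6
      have c2 : T * Real.log n ≤ g := by
        have h5 : 3 * max T 1 * ψ g ≤ g := by
          rwa [le_div_iff₀ hψ0] at k3
        have h6 : T * Real.log n ≤ max T 1 * Real.log n :=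
          mul_le_mul_of_nonneg_right (le_max_left _ _) hln0.le
        have h7 : max T 1 * Real.log n ≤ max T 1 * (3 * ψ g) :=
          mul_le_mul_of_nonneg_left hln3 (by linarith)
        linarith
      have h7 := (hT n g c1 c2 (by linarith) B hB hBE).1
      refine le_trans ?_ h7
      apply mul_le_mul_of_nonneg_right _ measureReal_nonneg
      rw [hq]
      apply Real.exp_le_exp.2
      nlinarith)
    refine hblk.trans ?_
    have h5 : (1 - q) ^ N g ≤ Real.exp (-(q * N g)) := by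
      have h6 : 1 - q ≤ Real.exp (-q) := by
        have := Real.add_one_le_exp (-q)
        linarith
      calc (1 - q) ^ N g ≤ Real.exp (-q) ^ N g := pow_le_pow_left₀ (by linarith) h6 _
        _ = Real.exp (-(q * N g)) := by
          rw [← Real.exp_nat_mul]
          congr 1
          ring
    refine h5.trans ?_
    rw [← Real.exp_add]
    apply Real.exp_le_exp.2
    -- `q N ≥ g - 1`
    have h6 : (YY ψ ε g : ℝ) / (2 * g) - 1 ≤ N g := by
      have h7 := Nat.lt_div_mul_add (a := YY ψ ε g) (b := 2 * g) (by omega)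
      have h8 : (YY ψ ε g : ℝ) < (N g : ℝ) * (2 * g) + 2 * g := by exact_mod_cast h7
      rw [div_sub_one (by positivity), div_le_iff₀ (by positivity)]
      nlinarith
    have h7 : 2 * (g : ℝ) ^ 2 ≤ Real.exp (ε / 2 * ψ g) := by
      have hlg : 0 < Real.log g := Real.log_pos (by linarith)
      have h8 : 3 * Real.log g ≤ ε / 2 * ψ g := by
        rw [div_le_div_iff₀ hε hlg] at k4
        nlinarith
      have h9 : Real.exp (3 * Real.log g) = (g : ℝ) ^ 3 := by
        rw [show (3:ℝ) * Real.log g = ((3:ℕ):ℝ) * Real.log g by norm_num, Real.exp_nat_mul,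
          Real.exp_log hg0]
      calc 2 * (g : ℝ) ^ 2 ≤ (g : ℝ) ^ 3 := by nlinarith [sq_nonneg (g:ℝ)]
        _ = Real.exp (3 * Real.log g) := h9.symm
        _ ≤ Real.exp (ε / 2 * ψ g) := Real.exp_le_exp.2 h8
    have h8 : Real.exp (ε / 2 * ψ g) ≤ q * YY ψ ε g := by
      calc Real.exp (ε / 2 * ψ g) = q * Real.exp ((1 + ε) * ψ g) := by
            rw [hq, ← Real.exp_add]
            congr 1
            ring
        _ ≤ q * YY ψ ε g := mul_le_mul_of_nonneg_left (exp_le_YY ψ ε g) hq0.le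
    have h9 : (g : ℝ) - 1 ≤ q * N g := by
      have h10 : q * ((YY ψ ε g : ℝ) / (2 * g) - 1) ≤ q * N g := mul_le_mul_of_nonneg_left h6 hq0.le
      have h11 : (g : ℝ) ≤ q * YY ψ ε g / (2 * g) := by
        rw [le_div_iff₀ (by positivity)]
        nlinarith
      have h12 : q * ((YY ψ ε g : ℝ) / (2 * g) - 1) = q * YY ψ ε g / (2 * g) - q := by ring
      linarith
    linarith
  have hsum : Summable fun g : ℕ => P.real (⋂ i ∈ Finset.range (N g),
      hit E (YY ψ ε g + 2 * g * i) g) := by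
    have h1 : Summable fun g : ℕ => Real.exp 1 * Real.exp (-(g : ℝ)) :=
      (Real.summable_exp_neg_nat).mul_left _
    obtain ⟨M, hM⟩ := eventually_atTop.1 hbound
    rw [← summable_nat_add_iff M]
    rw [← summable_nat_add_iff M] at h1
    exact Summable.of_nonneg_of_le (fun n => measureReal_nonneg) (fun n => hM _ (by omega)) h1
  filter_upwards [bc_upper hsum, hH.inf] with ω hω hinf
  filter_upwards [hω, eventually_gt_atTop (Nat.nth (· ∈ {n | ω ∈ E n}) 0),
    eventually_ge_atTop 1] with g hg hg0 hg1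
  simp only [Set.mem_iInter, not_forall] at hg
  obtain ⟨i, hi, hig⟩ := hg
  rw [Finset.mem_range] at hi
  obtain ⟨a, ha, hax, hfree⟩ := exists_free hinf rfl hg0 hig
  refine ⟨a, ha, hax.trans ?_, hfree⟩
  have hdiv : 2 * g * N g ≤ YY ψ ε g := Nat.mul_div_le _ _
  have h5 : 2 * g * (i + 1) ≤ 2 * g * N g := Nat.mul_le_mul_left _ hi
  have h6 : 2 * g * (i + 1) = 2 * g * i + 2 * g := by ring
  omega

/-- (B) -/
theorem low_ae (hBLK : S_BLK) (hS : Scale Λ) (hH : Hazard P E Λ) {ψ : ℕ → ℝ} (hψ : IsPsi Λ ψ)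
    (h1 : Tendsto ψ atTop atTop) (h2 : Tendsto (fun g : ℕ => (g : ℝ) / ψ g) atTop atTop)
    (h3 : Tendsto (fun g : ℕ => ψ g / Real.log g) atTop atTop) :
    ∀ᵐ ω ∂P, ∀ ε : ℝ, 0 < ε → LowG ψ {n | ω ∈ E n} ε := by
  have h4 : ∀ᵐ ω ∂P, ∀ k : ℕ, LowG ψ {n | ω ∈ E n} (1 / ((k : ℝ) + 1)) :=
    ae_all_iff.2 fun k => low_eps hBLK hS hH hψ h1 h2 h3 (by positivity) (by
      rw [div_le_one (by positivity)]
      have : (0:ℝ) ≤ k := Nat.cast_nonneg k
      linarith)
  filter_upwards [h4] with ω hω ε hε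
  obtain ⟨k, hk⟩ := exists_nat_one_div_lt hε
  filter_upwards [hω k, h1.eventually_ge_atTop 0] with g hg hg0
  obtain ⟨a, ha, ha2, hfree⟩ := hg
  refine ⟨a, ha, ha2.trans ?_, hfree⟩
  apply Nat.mul_le_mul_left
  apply Nat.ceil_le_ceil
  apply Real.exp_le_exp.2
  exact mul_le_mul_of_nonneg_right (by linarith) hg0

end Pool.Agent.H41.HZ
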