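import Pool.Agent.H41.HZ.Law

/-! # Project HZ: assembly -/

set_option autoImplicit false
set_option linter.unusedSectionVars false
set_option linter.unusedVariables false

namespace Pool.Agent.H41.HZ

open MeasureTheory Filter Topology ProbabilityTheory
open Pool.Agent.H34.ND (Free firstAfter)
open Pool.Agent.H41.LD (Past)
open Pool.Agent.H41.SL (Unb lowerLaw upperLaw)

/-- the almost sure law -/
theorem law_ae (hBLK : S_BLK) (hANA : S_ANA) {Λ : ℝ → ℝ} (hS : Scale Λ) {ψ : ℕ → ℝ}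
    (hψ : IsPsi Λ ψ) {Ω : Type} [MeasurableSpace Ω] (P : Measure Ω) [IsProbabilityMeasure P]
    {E : ℕ → Set Ω} (hH : Hazard P E Λ) :
    ∀ᵐ ω ∂P, Unb {n | ω ∈ E n} ∧
      Tendsto (fun g : ℕ => Real.log (firstAfter {n | ω ∈ E n} g) / ψ g) atTop (𝓝 1) ∧
      lowerLaw {n | ω ∈ E n} = liminf (fun t : ℝ => ((√(Λ t / t) : ℝ) : EReal)) atTop ∧
      upperLaw {n | ω ∈ E n} = limsup (fun t : ℝ => ((√(Λ t / t) : ℝ) : EReal)) atTop := by
  obtain ⟨h1, h2, h3, h4, h5, h6, h7⟩ := (hANA Λ hS).2 ψ hψ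
  filter_upwards [hH.inf, up_ae hS hH, low_ae hBLK hS hH hψ h3 h4 h5] with ω k1 k2 k3
  have k4 := ratio_tendsto hS k1 hψ h1 h3 k2 k3
  obtain ⟨k5, k6⟩ := laws_eq h3 k4
  exact ⟨unb_of_low k1 k3, k4, k5.trans h6, k6.trans h7⟩

lemma laws_of_tendsto {A : Set ℕ}
    (h : Tendsto (fun g : ℕ => Real.log (firstAfter A g) / √(g : ℝ)) atTop (𝓝 1)) :
    lowerLaw A = 1 ∧ upperLaw A = 1 := by
  have h1 : Tendsto (fun g : ℕ => ((Real.log (firstAfter A g) / √(g : ℝ) : ℝ) : EReal)) atTop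
      (𝓝 ((1 : ℝ) : EReal)) := EReal.tendsto_coe.2 h
  exact ⟨h1.liminf_eq, h1.limsup_eq⟩

lemma tendsto_of_laws {A : Set ℕ} (h1 : lowerLaw A = 1) (h2 : upperLaw A = 1) :
    Tendsto (fun g : ℕ => Real.log (firstAfter A g) / √(g : ℝ)) atTop (𝓝 1) := by
  apply EReal.tendsto_coe.1
  exact tendsto_of_liminf_eq_limsup h1 h2

lemma scale_iff {Λ : ℝ → ℝ} (hS : Scale Λ) :
    (liminf (fun t : ℝ => ((√(Λ t / t) : ℝ) : EReal)) atTop = 1 ∧
      limsup (fun t : ℝ => ((√(Λ t / t) : ℝ) : EReal)) atTop = 1) ↔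
    Tendsto (fun t : ℝ => Λ t / t) atTop (𝓝 1) := by
  constructor
  · rintro ⟨h1, h2⟩
    have h3 : Tendsto (fun t : ℝ => √(Λ t / t)) atTop (𝓝 1) := by
      apply EReal.tendsto_coe.1
      exact tendsto_of_liminf_eq_limsup h1 h2
    have h4 := h3.pow 2
    rw [one_pow] at h4
    refine h4.congr' ?_
    filter_upwards [eventually_gt_atTop 0] with t ht
    have h5 : 0 ≤ Λ t := by
      rw [← hS.zero]
      exact hS.mono ht.le
    exact Real.sq_sqrt (by positivity)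
  · intro h
    have h3 : Tendsto (fun t : ℝ => √(Λ t / t)) atTop (𝓝 1) := by
      have := (Real.continuous_sqrt.tendsto 1).comp h
      rwa [Real.sqrt_one] at this
    have h4 : Tendsto (fun t : ℝ => ((√(Λ t / t) : ℝ) : EReal)) atTop (𝓝 ((1 : ℝ) : EReal)) :=
      EReal.tendsto_coe.2 h3
    exact ⟨h4.liminf_eq, h4.limsup_eq⟩

/-- Shanks' law holds if and only if the cumulative hazard is asymptotic to `t` -/
theorem shanks_iff (hBLK : S_BLK) (hANA : S_ANA) {Λ : ℝ → ℝ} (hS : Scale Λ)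
    {Ω : Type} [MeasurableSpace Ω] (P : Measure Ω) [IsProbabilityMeasure P]
    {E : ℕ → Set Ω} (hH : Hazard P E Λ) :
    (∀ᵐ ω ∂P, Tendsto (fun g : ℕ => Real.log (firstAfter {n | ω ∈ E n} g) / √(g : ℝ)) atTop
      (𝓝 1)) ↔ Tendsto (fun t : ℝ => Λ t / t) atTop (𝓝 1) := by
  obtain ⟨ψ, hψ⟩ := (hANA Λ hS).1
  have h := law_ae hBLK hANA hS hψ P hH
  rw [← scale_iff hS]
  constructor
  · intro h1
    obtain ⟨ω, h2, h3⟩ := (h1.and h).exists
    obtain ⟨h4, h5⟩ := laws_of_tendsto h2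
    exact ⟨h3.2.2.1 ▸ h4, h3.2.2.2 ▸ h5⟩
  · rintro ⟨h1, h2⟩
    filter_upwards [h] with ω hω
    exact tendsto_of_laws (hω.2.2.1.trans h1) (hω.2.2.2.trans h2)

/-- the model -/
theorem model_hazard {Λ : ℝ → ℝ} (hS : Scale Λ) {Ω : Type} [MeasurableSpace Ω] (P : Measure Ω)
    [IsProbabilityMeasure P] {E : ℕ → Set Ω} (h1 : ∀ n, MeasurableSet (E n))
    (h2 : ∀ᵐ ω ∂P, {n | ω ∈ E n}.Infinite)
    (h3 : ∀ n h : ℕ, 2 ≤ n → ∀ B : Set Ω, MeasurableSet[Past E n] B → B ⊆ E n →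
        P.real (B ∩ Free E n (n + h)) = Real.exp (-Λ (h / Real.log n)) * P.real B) :
    Hazard P E Λ := by
  refine ⟨h1, h2, fun ε hε => ⟨2, fun n h hn _ _ B hB hBE => ?_⟩⟩
  have hn2 : 2 ≤ n := by exact_mod_cast hn
  have h4 : 0 ≤ Λ (h / Real.log n) := by
    rw [← hS.zero]
    exact hS.mono (div_nonneg (Nat.cast_nonneg h) (Real.log_natCast_nonneg n))
  rw [h3 n h hn2 B hB hBE]
  constructor
  · apply mul_le_mul_of_nonneg_right _ measureReal_nonneg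
    apply Real.exp_le_exp.2
    nlinarith
  · apply mul_le_mul_of_nonneg_right _ measureReal_nonneg
    apply Real.exp_le_exp.2
    nlinarith

end Pool.Agent.H41.HZ
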