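import Pool.Agent.H41.HZ.Stm3

/-! # Project HZ, module RNG: all limit laws occur -/

set_option autoImplicit false
set_option linter.unusedSectionVars false
set_option linter.unusedVariables false

namespace Pool.Agent.H41.HZ

open MeasureTheory Filter Topology ProbabilityTheory

/-- the scale function of `v` -/
noncomputable def Lam (v : ℝ → ℝ) (t : ℝ) : ℝ := if 0 < t then t * Real.exp (v (Real.log t)) else 0

section lip

variable {v : ℝ → ℝ} (hv : LipschitzWith (1 / 2) v)
include hv

lemma lip_abs (x y : ℝ) : |v x - v y| ≤ |x - y| / 2 := by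
  have h := hv.dist_le_mul x y
  rw [Real.dist_eq, Real.dist_eq] at h
  have h2 : (((1 / 2 : NNReal) : ℝ)) = 1 / 2 := by norm_num
  rw [h2] at h
  linarith

lemma Lam_pos_eq {t : ℝ} (ht : 0 < t) : Lam v t = Real.exp (Real.log t + v (Real.log t)) := by
  rw [Lam, if_pos ht, Real.exp_add, Real.exp_log ht]

lemma Lam_nonneg (t : ℝ) : 0 ≤ Lam v t := by
  unfold Lam
  split_ifs with h
  · positivity
  · exact le_rfl

lemma Lam_mono : Monotone (Lam v) := by
  intro s t hst
  by_cases hs : 0 < s
  · have ht : 0 < t := hs.trans_le hst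
    rw [Lam_pos_eq hv hs, Lam_pos_eq hv ht]
    apply Real.exp_le_exp.2
    have h1 := Real.log_le_log hs hst
    have h2 := lip_abs hv (Real.log s) (Real.log t)
    rw [abs_of_nonpos (by linarith : Real.log s - Real.log t ≤ 0)] at h2
    have h3 := (abs_le.1 h2).2
    linarith
  · have h1 : Lam v s = 0 := if_neg hs
    rw [h1]
    exact Lam_nonneg hv t

lemma Lam_le_sqrt {t : ℝ} (ht : t ≤ 1) : Lam v t ≤ Real.exp (v 0) * √t := by
  by_cases h0 : 0 < t
  · rw [Lam_pos_eq hv h0]
    have h1 : √t = Real.exp (Real.log t / 2) := by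
      rw [← Real.log_sqrt h0.le, Real.exp_log (Real.sqrt_pos.2 h0)]
    rw [h1, ← Real.exp_add]
    apply Real.exp_le_exp.2
    have h2 := lip_abs hv (Real.log t) 0
    have h3 : Real.log t ≤ 0 := Real.log_nonpos h0.le ht
    rw [sub_zero, abs_of_nonpos h3] at h2
    have h4 := (abs_le.1 h2).2
    linarith
  · have h1 : Lam v t = 0 := if_neg h0
    rw [h1]
    positivity

lemma sqrt_le_Lam {t : ℝ} (ht : 1 ≤ t) : Real.exp (v 0) * √t ≤ Lam v t := by
  have h0 : 0 < t := by linarith
  rw [Lam_pos_eq hv h0]
  have h1 : √t = Real.exp (Real.log t / 2) := by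
    rw [← Real.log_sqrt h0.le, Real.exp_log (Real.sqrt_pos.2 h0)]
  rw [h1, ← Real.exp_add]
  apply Real.exp_le_exp.2
  have h2 := lip_abs hv (Real.log t) 0
  have h3 : 0 ≤ Real.log t := Real.log_nonneg ht
  rw [sub_zero, abs_of_nonneg h3] at h2
  have h4 := (abs_le.1 h2).1
  linarith

lemma Lam_cont : Continuous (Lam v) := by
  rw [continuous_iff_continuousAt]
  intro t
  rcases lt_trichotomy t 0 with h | h | h
  · have h1 : Lam v =ᶠ[𝓝 t] fun _ => 0 := by
      filter_upwards [Iio_mem_nhds h] with s hs
      exact if_neg (not_lt.2 (le_of_lt hs))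
    exact continuousAt_const.congr h1.symm
  · subst h
    have h0 : Lam v 0 = 0 := if_neg (lt_irrefl 0)
    rw [ContinuousAt, h0]
    have h1 : Tendsto (fun t : ℝ => Real.exp (v 0) * √t) (𝓝 0) (𝓝 0) := by
      have h2 : Continuous fun t : ℝ => Real.exp (v 0) * √t :=
        continuous_const.mul Real.continuous_sqrt
      have h3 := h2.tendsto 0
      rwa [Real.sqrt_zero, mul_zero] at h3
    refine tendsto_of_tendsto_of_tendsto_of_le_of_le' tendsto_const_nhds h1
      (Eventually.of_forall fun t => Lam_nonneg hv t) ?_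
    filter_upwards [Iio_mem_nhds (show (0:ℝ) < 1 by norm_num)] with s hs
    exact Lam_le_sqrt hv (le_of_lt hs)
  · have h1 : Lam v =ᶠ[𝓝 t] fun s => s * Real.exp (v (Real.log s)) := by
      filter_upwards [Ioi_mem_nhds h] with s hs
      exact if_pos hs
    refine ContinuousAt.congr ?_ h1.symm
    exact continuousAt_id.mul (Real.continuous_exp.continuousAt.comp
      (hv.continuous.continuousAt.comp (Real.continuousAt_log h.ne')))

theorem Lam_scale : Scale (Lam v) := by
  refine ⟨Lam_cont hv, Lam_mono hv, if_neg (lt_irrefl 0), ?_, ?_⟩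
  · rw [tendsto_atTop]
    intro K
    have hc : 0 < Real.exp (v 0) / (|K| + 1) := by positivity
    have h1 := (isLittleO_log_rpow_atTop (show (0:ℝ) < 1 / 2 by norm_num)).bound hc
    filter_upwards [h1, eventually_gt_atTop 1] with t h2 h3
    have hl : 0 < Real.log t := Real.log_pos h3
    rw [← Real.sqrt_eq_rpow, Real.norm_of_nonneg (Real.sqrt_nonneg _), Real.norm_of_nonneg hl.le]
      at h2
    rw [le_div_iff₀ hl]
    have h4 := sqrt_le_Lam hv h3.le
    have h5 : (|K| + 1) * Real.log t ≤ Real.exp (v 0) * √t := by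
      rw [div_mul_eq_mul_div, le_div_iff₀ (by positivity)] at h2
      linarith
    have h6 : K * Real.log t ≤ (|K| + 1) * Real.log t :=
      mul_le_mul_of_nonneg_right (by linarith [le_abs_self K]) hl.le
    linarith
  · intro ε hε
    refine ⟨1, one_pos, ?_⟩
    have hl : 0 < Real.log (1 + ε) := Real.log_pos (by linarith)
    filter_upwards [eventually_ge_atTop 1, eventually_ge_atTop (2 / Real.log (1 + ε))] with t h1 h2
    have ht : 0 < t := by linarith
    rw [Lam_pos_eq hv ht, Lam_pos_eq hv (by linarith : 0 < t + 1)]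
    have h3 : Real.log (t + 1) - Real.log t ≤ 1 / t := by
      rw [← Real.log_div (by linarith) ht.ne']
      have h4 := Real.log_le_sub_one_of_pos (show 0 < (t + 1) / t by positivity)
      have h5 : (t + 1) / t - 1 = 1 / t := by field_simp; ring
      linarith
    have h4 : Real.log t ≤ Real.log (t + 1) := Real.log_le_log ht (by linarith)
    have h5 := lip_abs hv (Real.log (t + 1)) (Real.log t)
    rw [abs_of_nonneg (by linarith : 0 ≤ Real.log (t + 1) - Real.log t)] at h5
    have h6 := (abs_le.1 h5).2
    have h7 : 2 * (1 / t) ≤ Real.log (1 + ε) := by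
      rw [div_le_iff₀ hl] at h2
      rw [mul_one_div, div_le_iff₀ ht]
      linarith
    calc Real.exp (Real.log (t + 1) + v (Real.log (t + 1)))
        ≤ Real.exp (Real.log (1 + ε) + (Real.log t + v (Real.log t))) := by
          apply Real.exp_le_exp.2
          have h8 : 0 ≤ 1 / t := by positivity
          linarith
      _ = (1 + ε) * Real.exp (Real.log t + v (Real.log t)) := by
        rw [Real.exp_add (Real.log (1 + ε)), Real.exp_log (by linarith)]

lemma lims_eq : liminf (fun t : ℝ => ((√(Lam v t / t) : ℝ) : EReal)) atTop =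
      liminf (fun u : ℝ => ((Real.exp (v u / 2) : ℝ) : EReal)) atTop ∧
    limsup (fun t : ℝ => ((√(Lam v t / t) : ℝ) : EReal)) atTop =
      limsup (fun u : ℝ => ((Real.exp (v u / 2) : ℝ) : EReal)) atTop := by
  have h1 : ∀ u : ℝ, √(Lam v (Real.exp u) / Real.exp u) = Real.exp (v u / 2) := by
    intro u
    rw [Lam, if_pos (Real.exp_pos u), Real.log_exp, mul_div_cancel_left₀ _ (Real.exp_pos u).ne',
      Real.sqrt_eq_rpow, ← Real.exp_mul]
    congr 1
    ring
  have h2 : (atTop : Filter ℝ) = map Real.exp atTop := Real.map_exp_atTop.symm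
  constructor
  · conv_lhs => rw [h2]
    rw [← liminf_comp]
    congr 1
    funext u
    simp only [Function.comp_apply, h1]
  · conv_lhs => rw [h2]
    rw [← limsup_comp]
    congr 1
    funext u
    simp only [Function.comp_apply, h1]

end lip

lemma lims_of {G : ℝ → EReal} {a b : EReal} (h1 : ∀ᶠ u in atTop, a ≤ G u)
    (h2 : ∀ x : EReal, a < x → ∃ᶠ u in atTop, G u ≤ x) (h3 : ∀ᶠ u in atTop, G u ≤ b)
    (h4 : ∀ x : EReal, x < b → ∃ᶠ u in atTop, x ≤ G u) :
    liminf G atTop = a ∧ limsup G atTop = b := by
  refine ⟨le_antisymm ?_ (le_liminf_of_le (by isBoundedDefault) h1),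
    le_antisymm (limsup_le_of_le (by isBoundedDefault) h3) ?_⟩
  · apply le_of_forall_gt_imp_ge_of_dense
    intro x hx
    exact liminf_le_of_frequently_le (h2 x hx) (by isBoundedDefault)
  · apply le_of_forall_lt_imp_le_of_dense
    intro x hx
    exact le_limsup_of_frequently_le (h4 x hx) (by isBoundedDefault)

/-- the oscillating function -/
noncomputable def osc (u : ℝ) : ℝ := if 0 < u then u * Real.sin (Real.log u) / 4 else 0

lemma osc_abs_le {u : ℝ} (hu : 0 < u) : |osc u| ≤ u / 4 := by
  rw [osc, if_pos hu, abs_div, abs_mul, abs_of_pos hu, abs_of_pos (by norm_num : (0:ℝ) < 4)]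
  have := Real.abs_sin_le_one (Real.log u)
  have h2 : u * |Real.sin (Real.log u)| ≤ u * 1 := mul_le_mul_of_nonneg_left this hu.le
  linarith

lemma osc_lip : LipschitzWith (1 / 2) osc := by
  apply LipschitzWith.of_dist_le_mul
  intro x y
  rw [Real.dist_eq, Real.dist_eq]
  have h2 : (((1 / 2 : NNReal) : ℝ)) = 1 / 2 := by norm_num
  rw [h2]
  have key : ∀ x y : ℝ, x ≤ 0 → 0 < y → |osc x - osc y| ≤ 1 / 2 * |x - y| := by
    intro x y hx hy
    have h1 : osc x = 0 := if_neg (not_lt.2 hx)
    rw [h1, zero_sub, abs_neg, abs_of_nonpos (by linarith : x - y ≤ 0)]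
    have := osc_abs_le hy
    linarith
  rcases le_or_gt x 0 with hx | hx <;> rcases le_or_gt y 0 with hy | hy
  · have h1 : osc x = 0 := if_neg (not_lt.2 hx)
    have h3 : osc y = 0 := if_neg (not_lt.2 hy)
    rw [h1, h3, sub_zero, abs_zero]
    positivity
  · exact key x y hx hy
  · rw [abs_sub_comm, abs_sub_comm x y]
    exact key y x hy hx
  · have hd : ∀ u ∈ Set.Ioi (0:ℝ), HasDerivWithinAt osc
        ((Real.sin (Real.log u) + Real.cos (Real.log u)) / 4) (Set.Ioi 0) u := by
      intro u hu
      have hu' : (0:ℝ) < u := hu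
      have h3 : HasDerivAt (fun u => u * Real.sin (Real.log u) / 4)
          ((1 * Real.sin (Real.log u) + u * (Real.cos (Real.log u) * u⁻¹)) / 4) u :=
        ((hasDerivAt_id u).mul ((Real.hasDerivAt_sin _).comp u
          (Real.hasDerivAt_log hu'.ne'))).div_const 4
      have h4 : (1 * Real.sin (Real.log u) + u * (Real.cos (Real.log u) * u⁻¹)) / 4 =
          (Real.sin (Real.log u) + Real.cos (Real.log u)) / 4 := by
        field_simp
      rw [h4] at h3
      refine h3.hasDerivWithinAt.congr (fun w hw => if_pos hw) (if_pos hu')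
    have h3 := (convex_Ioi (0:ℝ)).norm_image_sub_le_of_norm_hasDerivWithin_le
      (C := 1 / 2) hd (fun u hu => by
        rw [Real.norm_eq_abs, abs_div, abs_of_pos (by norm_num : (0:ℝ) < 4)]
        have h4 := abs_add_le (Real.sin (Real.log u)) (Real.cos (Real.log u))
        have h5 := Real.abs_sin_le_one (Real.log u)
        have h6 := Real.abs_cos_le_one (Real.log u)
        rw [div_le_iff₀ (by norm_num)]
        linarith) (Set.mem_Ioi.2 hy) (Set.mem_Ioi.2 hx)
    rwa [Real.norm_eq_abs, Real.norm_eq_abs] at h3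

lemma osc_top (M : ℝ) : ∃ᶠ u in atTop, M ≤ osc u := by
  have h1 : Tendsto (fun k : ℕ => Real.exp (Real.pi / 2 + k * (2 * Real.pi))) atTop atTop := by
    apply Real.tendsto_exp_atTop.comp
    apply tendsto_atTop_add_const_left
    exact tendsto_natCast_atTop_atTop.atTop_mul_const (by positivity)
  have h2 : ∀ᶠ k : ℕ in atTop, M ≤ osc (Real.exp (Real.pi / 2 + k * (2 * Real.pi))) := by
    filter_upwards [h1.eventually_ge_atTop (4 * M)] with k hk
    rw [osc, if_pos (Real.exp_pos _), Real.log_exp, Real.sin_add_nat_mul_two_pi, Real.sin_pi_div_two]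
    linarith
  exact h1.frequently h2.frequently

lemma osc_bot (M : ℝ) : ∃ᶠ u in atTop, osc u ≤ M := by
  have h1 : Tendsto (fun k : ℕ => Real.exp (-(Real.pi / 2) + k * (2 * Real.pi))) atTop atTop := by
    apply Real.tendsto_exp_atTop.comp
    apply tendsto_atTop_add_const_left
    exact tendsto_natCast_atTop_atTop.atTop_mul_const (by positivity)
  have h2 : ∀ᶠ k : ℕ in atTop, osc (Real.exp (-(Real.pi / 2) + k * (2 * Real.pi))) ≤ M := by
    filter_upwards [h1.eventually_ge_atTop (-4 * M)] with k hk
    rw [osc, if_pos (Real.exp_pos _), Real.log_exp, Real.sin_add_nat_mul_two_pi, Real.sin_neg,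
      Real.sin_pi_div_two]
    linarith
  exact h1.frequently h2.frequently

lemma exp_half_le {y x : ℝ} (hx : 0 < x) (h : y ≤ 2 * Real.log x) : Real.exp (y / 2) ≤ x := by
  rw [← Real.le_log_iff_exp_le hx]
  linarith

lemma le_exp_half {y x : ℝ} (hx : 0 < x) (h : 2 * Real.log x ≤ y) : x ≤ Real.exp (y / 2) := by
  rw [← Real.log_le_iff_le_exp hx]
  linarith

/-- the choice of `v` -/
lemma exists_v (a b : EReal) (ha : 0 ≤ a) (hab : a ≤ b) : ∃ v : ℝ → ℝ, LipschitzWith (1 / 2) v ∧
    liminf (fun u : ℝ => ((Real.exp (v u / 2) : ℝ) : EReal)) atTop = a ∧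
    limsup (fun u : ℝ => ((Real.exp (v u / 2) : ℝ) : EReal)) atTop = b := by
  have hnn : ∀ v : ℝ → ℝ, ∀ᶠ u : ℝ in atTop, (0 : EReal) ≤ ((Real.exp (v u / 2) : ℝ) : EReal) :=
    fun v => Eventually.of_forall fun u => by exact_mod_cast (Real.exp_pos _).le
  -- lower part for `a = 0`
  have hlow : ∀ v : ℝ → ℝ, (∀ u, v u ≤ osc u) → ∀ x : EReal, 0 < x →
      ∃ᶠ u in atTop, ((Real.exp (v u / 2) : ℝ) : EReal) ≤ x := by
    intro v hv x hx
    obtain ⟨r, hr1, hr2⟩ := EReal.lt_iff_exists_real_btwn.1 hx
    have hr0 : 0 < r := by exact_mod_cast hr1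
    refine (osc_bot (2 * Real.log r)).mono fun u hu => le_trans ?_ hr2.le
    exact_mod_cast exp_half_le hr0 ((hv u).trans hu)
  -- upper part for `b = ⊤`
  have hupp : ∀ v : ℝ → ℝ, (∀ u, osc u ≤ v u) → ∀ x : EReal, x < ⊤ →
      ∃ᶠ u in atTop, x ≤ ((Real.exp (v u / 2) : ℝ) : EReal) := by
    intro v hv x hx
    obtain ⟨r, hr1, -⟩ := EReal.lt_iff_exists_real_btwn.1 hx
    have hr0 : (0:ℝ) < max r 1 := lt_max_of_lt_right one_pos
    refine (osc_top (2 * Real.log (max r 1))).mono fun u hu => ?_
    have h1 := le_exp_half hr0 (hu.trans (hv u))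
    exact hr1.le.trans (by exact_mod_cast (le_max_left r 1).trans h1)
  induction b with
  | bot => exact absurd (ha.trans hab) (by simp)
  | top =>
    induction a with
    | bot => exact absurd ha (by simp)
    | top =>
      refine ⟨fun u => u / 2, ?_, ?_⟩
      · apply LipschitzWith.of_dist_le_mul
        intro x y
        rw [Real.dist_eq, Real.dist_eq]
        have h2 : (((1 / 2 : NNReal) : ℝ)) = 1 / 2 := by norm_num
        rw [h2, ← sub_div, abs_div, abs_of_pos (by norm_num : (0:ℝ) < 2)]
        linarith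
      · have h1 : Tendsto (fun u : ℝ => ((Real.exp (u / 2 / 2) : ℝ) : EReal)) atTop (𝓝 ⊤) := by
          apply EReal.tendsto_coe_nhds_top_iff.2
          apply Real.tendsto_exp_atTop.comp
          exact (tendsto_id.atTop_div_const (by norm_num)).atTop_div_const (by norm_num)
        exact ⟨h1.liminf_eq, h1.limsup_eq⟩
    | coe a =>
      have ha' : 0 ≤ a := by exact_mod_cast ha
      rcases ha'.eq_or_lt with h0 | h0
      · subst h0
        exact ⟨osc, osc_lip, lims_of (hnn osc) (hlow osc fun u => le_rfl)
          (Eventually.of_forall fun u => le_top) (hupp osc fun u => le_rfl)⟩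
      · refine ⟨fun u => max (2 * Real.log a) (osc u), osc_lip.const_max _, lims_of ?_ ?_
          (Eventually.of_forall fun u => le_top) (hupp _ fun u => le_max_right _ _)⟩
        · exact Eventually.of_forall fun u => by
            exact_mod_cast le_exp_half h0 (le_max_left _ _)
        · intro x hx
          refine (osc_bot (2 * Real.log a)).mono fun u hu => le_trans ?_ hx.le
          exact_mod_cast exp_half_le h0 (max_le le_rfl hu)
  | coe b =>
    induction a with
    | bot => exact absurd ha (by simp)
    | top => exact absurd hab (by simp)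
    | coe a =>
      have ha' : 0 ≤ a := by exact_mod_cast ha
      have hab' : a ≤ b := by exact_mod_cast hab
      have hb' : 0 ≤ b := ha'.trans hab'
      rcases hb'.eq_or_lt with hb0 | hb0
      · have ha0 : a = 0 := le_antisymm (by rw [hb0]; exact hab') ha'
        subst ha0
        subst hb0
        refine ⟨fun u => -u / 2, ?_, ?_⟩
        · apply LipschitzWith.of_dist_le_mul
          intro x y
          rw [Real.dist_eq, Real.dist_eq]
          have h2 : (((1 / 2 : NNReal) : ℝ)) = 1 / 2 := by norm_num
          have h3 : -x / 2 - -y / 2 = -((x - y) / 2) := by ring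
          rw [h2, h3, abs_neg, abs_div, abs_of_pos (by norm_num : (0:ℝ) < 2)]
          linarith
        · have h1 : Tendsto (fun u : ℝ => ((Real.exp (-u / 2 / 2) : ℝ) : EReal)) atTop
              (𝓝 ((0 : ℝ) : EReal)) := by
            apply EReal.tendsto_coe.2
            apply Real.tendsto_exp_atBot.comp
            have h2 : (fun u : ℝ => -u / 2 / 2) = fun u => -(u / 4) := by
              funext u
              ring
            rw [h2]
            exact tendsto_neg_atTop_atBot.comp (tendsto_id.atTop_div_const (by norm_num))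
          exact ⟨h1.liminf_eq, h1.limsup_eq⟩
      · rcases ha'.eq_or_lt with h0 | h0
        · subst h0
          refine ⟨fun u => min (2 * Real.log b) (osc u), osc_lip.const_min _, lims_of (hnn _)
            (hlow _ fun u => min_le_right _ _) ?_ ?_⟩
          · exact Eventually.of_forall fun u => by
              exact_mod_cast exp_half_le hb0 (min_le_left _ _)
          · intro x hx
            refine (osc_top (2 * Real.log b)).mono fun u hu => hx.le.trans ?_
            exact_mod_cast le_exp_half hb0 (le_min le_rfl hu)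
        · have hll : 2 * Real.log a ≤ 2 * Real.log b := by
            have := Real.log_le_log h0 hab'
            linarith
          refine ⟨fun u => max (2 * Real.log a) (min (2 * Real.log b) (osc u)),
            (osc_lip.const_min _).const_max _, lims_of ?_ ?_ ?_ ?_⟩
          · exact Eventually.of_forall fun u => by
              exact_mod_cast le_exp_half h0 (le_max_left _ _)
          · intro x hx
            refine (osc_bot (2 * Real.log a)).mono fun u hu => le_trans ?_ hx.le
            exact_mod_cast exp_half_le h0 (max_le le_rfl ((min_le_right _ _).trans hu))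
          · exact Eventually.of_forall fun u => by
              exact_mod_cast exp_half_le hb0 (max_le hll (min_le_left _ _))
          · intro x hx
            refine (osc_top (2 * Real.log b)).mono fun u hu => hx.le.trans ?_
            exact_mod_cast le_exp_half hb0 ((le_min le_rfl hu).trans (le_max_right _ _))

/-- **Module RNG.** -/
theorem rng : S_RNG := by
  intro a b ha hab
  obtain ⟨v, hv, h1, h2⟩ := exists_v a b ha hab
  exact ⟨Lam v, Lam_scale hv, (lims_eq hv).1.trans h1, (lims_eq hv).2.trans h2⟩

end Pool.Agent.H41.HZ
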