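import Pool.Agent.H41.HZ.Stm

/-! # Project HZ (helper41): Cramér's model is an example -/

set_option autoImplicit false

namespace Pool.Agent.H41.HZ

open MeasureTheory Filter Topology ProbabilityTheory
open Pool.Agent.H34.ND (Free firstAfter)
open Pool.Agent.H41.LD (Past)

/-- CRM (module CRM): Cramér's model has the cumulative hazard `Λ(t) = t`.

Proof. `inf`: the second Borel–Cantelli lemma (`measure_limsup_eq_one`; `∑ P(E n) = ∞` because
`P(E n) ≥ 1 / (2 log n) ≥ 1 / (2 n)`). `gap`: `Free E n (n + h) = ⋂ k ∈ (n, n + h], (E k)ᶜ` is independent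
of `Past E n` (`iIndepSet`; see `Pool.Agent.H41.SL`, `LD` for the independence of `Past` and `Future`),
so `P (B ∩ Free E n (n + h)) = P B * ∏ k ∈ (n, n + h], (1 - p k)`, `p k = P (E k)`. For `h ≤ 2 (log n) ^ 2`
(from `Λ(h / log n) ≤ 2 log n`) and `n` large, `n < k ≤ n + h`: `(1 - δ) / log n ≤ p k ≤ (1 + δ) / log n`
and `exp (-(1 + δ) p k) ≤ 1 - p k ≤ exp (-p k)`. So the product is between `exp (-(1 + δ) ^ 2 h / log n)`
and `exp (-(1 - δ) h / log n)`. -/
def S_CRM : Prop :=
  ∀ (Ω : Type) [MeasurableSpace Ω] (P : Measure Ω) [IsProbabilityMeasure P] (E : ℕ → Set Ω),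
    (∀ n, MeasurableSet (E n)) → iIndepSet E P →
    Tendsto (fun n : ℕ => P.real (E n) * Real.log n) atTop (𝓝 1) → Hazard P E (fun t => t)

end Pool.Agent.H41.HZ
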