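import Pool.Agent.H41.HZ.Stm

/-! # Project HZ (helper41): all limit laws occur -/

set_option autoImplicit false

namespace Pool.Agent.H41.HZ

open MeasureTheory Filter Topology ProbabilityTheory

/-- RNG (module RNG): every pair of limits occurs.

Proof. Look for `Λ t = t * exp (v (log t))` for `t > 0`, `Λ t = 0` for `t ≤ 0`, with `v : ℝ → ℝ`,
`|v x - v y| ≤ |x - y| / 2` (1/2-Lipschitz). Then `u + v u` is increasing, so `Λ` is monotone;
`Λ t ≤ t * exp (|v 0| + |log t| / 2)`, so `Λ` is continuous at `0`; `Λ t ≥ exp (v 0) * t ^ (1/2)` up to a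
constant for `t ≥ 1`, so `light`; `Λ (t + s) ≤ ((t + s) / t) ^ (3/2) * Λ t`, so `reg` (`s = 1`).
`√(Λ t / t) = exp (v (log t) / 2)`, so the limits are those of `exp (v u / 2)`, `u → ∞`.
Choice of `v`: `f u = u * sin (log u) / 4` for `u > 0` and `f u = 0` for `u ≤ 0` is 1/2-Lipschitz
(derivative `(sin (log u) + cos (log u)) / 4`), and has the lower limit `-∞` and the upper limit `∞`
at `∞`. If `0 < a`, `b < ∞`: `v = max (2 log a) (min (2 log b) f)`. If `a = 0`, `0 < b < ∞`:
`v = min (2 log b) f`. If `0 < a < ∞`, `b = ∞`: `v = max (2 log a) f`. If `a = 0`, `b = ∞`: `v = f`.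
If `a = b = 0`: `v u = - u / 2`; if `a = b = ∞`: `v u = u / 2`. (Each limit by eventual and frequent
inequalities; `exp (v u / 2) ≥ a` always and `= a` for infinitely many `u`, ...) -/
def S_RNG : Prop :=
  ∀ a b : EReal, 0 ≤ a → a ≤ b → ∃ Λ : ℝ → ℝ, Scale Λ ∧
    liminf (fun t : ℝ => ((√(Λ t / t) : ℝ) : EReal)) atTop = a ∧
    limsup (fun t : ℝ => ((√(Λ t / t) : ℝ) : EReal)) atTop = b

end Pool.Agent.H41.HZ
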