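import Pool.Agent.H41.HZ.Stm
import Pool.Agent.H41.SL.Det

/-! # Project HZ: the upper bound for the gaps -/

set_option autoImplicit false
set_option linter.unusedSectionVars false
set_option linter.unusedVariables false

namespace Pool.Agent.H41.HZ

open MeasureTheory Filter Topology ProbabilityTheory
open Pool.Agent.H34.ND (Free firstAfter bc_upper nth_mono gap_of_free index_large firstAfter_le
  firstAfter_spec tendsto_log_nat exists_between)
open Pool.Agent.H41.LD (Past)
open Pool.Agent.H41.SL (Unb lowerLaw upperLaw Next next_of_dyadic)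

lemma Scale.tend {Λ : ℝ → ℝ} (hS : Scale Λ) : Tendsto Λ atTop atTop := by
  have h1 : Tendsto Real.log atTop atTop := Real.tendsto_log_atTop
  refine tendsto_atTop_mono' _ ?_ h1
  filter_upwards [hS.light.eventually_ge_atTop 1, eventually_gt_atTop 1] with t ht ht1
  have h2 : 0 < Real.log t := Real.log_pos ht1
  rw [le_div_iff₀ h2] at ht
  linarith

lemma Scale.ivt {Λ : ℝ → ℝ} (hS : Scale Λ) {y : ℝ} (hy : 0 ≤ y) : ∃ t : ℝ, 0 ≤ t ∧ Λ t = y := by
  obtain ⟨b, hb⟩ := ((hS.tend.eventually_ge_atTop y).and (eventually_ge_atTop 0)).exists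
  obtain ⟨t, ht, hty⟩ := intermediate_value_Icc hb.2 hS.cont.continuousOn
    (show y ∈ Set.Icc (Λ 0) (Λ b) from ⟨by rw [hS.zero]; exact hy, hb.1⟩)
  exact ⟨t, ht.1, hty⟩

variable {Ω : Type*} [MeasurableSpace Ω] {P : Measure Ω} [IsProbabilityMeasure P]
  {E : ℕ → Set Ω} {Λ : ℝ → ℝ}

lemma mem_past (E : ℕ → Set Ω) (n : ℕ) : MeasurableSet[Past E n] (E n) :=
  MeasurableSpace.measurableSet_generateFrom ⟨n, le_rfl, rfl⟩

/-- a free window after a large element is short -/
def UpG (Λ : ℝ → ℝ) (A : Set ℕ) (ε : ℝ) : Prop := ∀ᶠ n : ℕ in atTop, n ∈ A → ∀ h : ℕ,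
  (∀ m, n < m → m ≤ n + h → m ∉ A) → Λ (h / Real.log n) ≤ (1 + ε) * Real.log n

lemma up_eps (hS : Scale Λ) (hH : Hazard P E Λ) {ε : ℝ} (hε : 0 < ε) (hε1 : ε ≤ 1) :
    ∀ᵐ ω ∂P, UpG Λ {n | ω ∈ E n} ε := by
  -- the critical times
  have ht : ∀ n : ℕ, ∃ t : ℝ, 0 ≤ t ∧ Λ t = (1 + ε) * Real.log n := fun n =>
    hS.ivt (mul_nonneg (by linarith) (Real.log_natCast_nonneg n))
  choose t ht0 htΛ using ht
  have htt : Tendsto t atTop atTop := by
    rw [tendsto_atTop]
    intro M
    have h1 : Tendsto (fun n : ℕ => (1 + ε) * Real.log n) atTop atTop :=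
      tendsto_log_nat.const_mul_atTop (by linarith)
    filter_upwards [h1.eventually_gt_atTop (Λ M)] with n hn
    by_contra hcon
    rw [not_le] at hcon
    have h2 := hS.mono hcon.le
    rw [htΛ n] at h2
    linarith
  set h : ℕ → ℕ := fun n => ⌊t n * Real.log n⌋₊ with hh
  set ε' : ℝ := ε / 8 with hε'
  have hε'0 : 0 < ε' := by positivity
  obtain ⟨T, hT⟩ := hH.gap ε' hε'0
  obtain ⟨s, hs0, hs⟩ := hS.reg ε' hε'0
  have hbound : ∀ᶠ n : ℕ in atTop, P.real (E n ∩ Free E n (n + h n)) ≤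
      (n : ℝ) ^ (-(1 + ε / 2)) := by
    have hts : Tendsto (fun n : ℕ => t n - s) atTop atTop :=
      tendsto_atTop_add_const_right _ _ htt
    filter_upwards [eventually_ge_atTop ⌈T⌉₊, htt.eventually_ge_atTop (T + 1),
      tendsto_log_nat.eventually_ge_atTop 1, tendsto_log_nat.eventually_ge_atTop (1 / s),
      hts.eventually hs, eventually_ge_atTop 1] with n h1 h2 h3 h4 h5 h6
    have hlog : 0 < Real.log n := by linarith
    have hfl : t n * Real.log n < h n + 1 := Nat.lt_floor_add_one _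
    have hfl2 : (h n : ℝ) ≤ t n * Real.log n :=
      Nat.floor_le (mul_nonneg (ht0 n) hlog.le)
    have h7 : T * Real.log n ≤ h n := by nlinarith
    have h8 : (h n : ℝ) / Real.log n ≤ t n := by
      rw [div_le_iff₀ hlog]
      exact hfl2
    have h9 : t n - s ≤ (h n : ℝ) / Real.log n := by
      rw [le_div_iff₀ hlog]
      have h10 : 1 ≤ s * Real.log n := by
        rw [div_le_iff₀ hs0] at h4
        linarith
      nlinarith
    have h10 : Λ ((h n : ℝ) / Real.log n) ≤ (1 + ε) * Real.log n := by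
      rw [← htΛ n]
      exact hS.mono h8
    have h11 : (1 + ε) * Real.log n ≤ (1 + ε') * Λ ((h n : ℝ) / Real.log n) := by
      rw [← htΛ n]
      have h12 : t n - s + s = t n := by ring
      rw [h12] at h5
      exact h5.trans (mul_le_mul_of_nonneg_left (hS.mono h9) (by linarith))
    have h12 := (hT n (h n) ((Nat.le_ceil T).trans (by exact_mod_cast h1)) h7
      (by nlinarith) (E n) (mem_past E n) le_rfl).2
    refine h12.trans ?_
    have h13 : P.real (E n) ≤ 1 := measureReal_le_one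
    have h14 : (0:ℝ) < n := by exact_mod_cast h6
    rw [Real.rpow_def_of_pos h14]
    have h15 : Real.exp (-(1 - ε') * Λ ((h n : ℝ) / Real.log n)) * P.real (E n) ≤
        Real.exp (-(1 - ε') * Λ ((h n : ℝ) / Real.log n)) * 1 :=
      mul_le_mul_of_nonneg_left h13 (Real.exp_pos _).le
    refine h15.trans ?_
    rw [mul_one]
    apply Real.exp_le_exp.2
    have h16 : (1 + ε / 2) * Real.log n ≤ (1 - ε') * Λ ((h n : ℝ) / Real.log n) := by
      have h17 : (1 + ε / 2) * (1 + ε') ≤ (1 - ε') * (1 + ε) := by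
        rw [hε']
        nlinarith
      have h18 : 0 < 1 + ε' := by linarith
      have h19 : (1 - ε') * ((1 + ε) * Real.log n) ≤
          (1 - ε') * ((1 + ε') * Λ ((h n : ℝ) / Real.log n)) :=
        mul_le_mul_of_nonneg_left h11 (by rw [hε']; linarith)
      have h20 : (1 + ε / 2) * (1 + ε') * Real.log n ≤ (1 - ε') * (1 + ε) * Real.log n :=
        mul_le_mul_of_nonneg_right h17 hlog.le
      have h21 : (1 + ε') * ((1 + ε / 2) * Real.log n) ≤
          (1 + ε') * ((1 - ε') * Λ ((h n : ℝ) / Real.log n)) := by nlinarith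
      exact le_of_mul_le_mul_left h21 h18
    linarith
  have hsum : Summable fun n : ℕ => P.real (E n ∩ Free E n (n + h n)) := by
    have h1 : Summable fun n : ℕ => (n : ℝ) ^ (-(1 + ε / 2)) :=
      Real.summable_nat_rpow.2 (by linarith)
    obtain ⟨N, hN⟩ := eventually_atTop.1 hbound
    rw [← summable_nat_add_iff N]
    rw [← summable_nat_add_iff N] at h1
    exact Summable.of_nonneg_of_le (fun n => measureReal_nonneg) (fun n => hN _ (by omega)) h1
  filter_upwards [bc_upper hsum] with ω hω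
  filter_upwards [hω, tendsto_log_nat.eventually_gt_atTop 0] with n hn hlog hnA k hk
  by_contra hcon
  rw [not_le, ← htΛ n] at hcon
  have h1 : t n < (k : ℝ) / Real.log n := by
    by_contra h2
    rw [not_lt] at h2
    exact absurd (hS.mono h2) (not_le.2 hcon)
  rw [lt_div_iff₀ hlog] at h1
  have h2 : h n ≤ k := by
    have h3 : (h n : ℝ) ≤ t n * Real.log n := Nat.floor_le (mul_nonneg (ht0 n) hlog.le)
    exact_mod_cast h3.trans h1.le
  exact hn ⟨hnA, fun m hm1 hm2 => hk m hm1 (by omega)⟩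

/-- (A) -/
theorem up_ae (hS : Scale Λ) (hH : Hazard P E Λ) :
    ∀ᵐ ω ∂P, ∀ ε : ℝ, 0 < ε → UpG Λ {n | ω ∈ E n} ε := by
  have h1 : ∀ᵐ ω ∂P, ∀ k : ℕ, UpG Λ {n | ω ∈ E n} (1 / ((k : ℝ) + 1)) :=
    ae_all_iff.2 fun k => up_eps hS hH (by positivity) (by
      rw [div_le_one (by positivity)]
      have : (0:ℝ) ≤ k := Nat.cast_nonneg k
      linarith)
  filter_upwards [h1] with ω hω ε hε
  obtain ⟨k, hk⟩ := exists_nat_one_div_lt hε
  filter_upwards [hω k] with n hn hnA h hh
  refine (hn hnA h hh).trans ?_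
  exact mul_le_mul_of_nonneg_right (by linarith) (Real.log_natCast_nonneg n)

end Pool.Agent.H41.HZ
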